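import Mathlib

/-!
# The Clifford algebra of a Euclidean space (negative definite form) and products of unit vectors

Part of the solution of MP_aa0c4d_al (after a paper proof of helper801).
-/

namespace Pool.Agent.R369.Spin

noncomputable section

open CliffordAlgebra

variable {V : Type*} [NormedAddCommGroup V] [InnerProductSpace ℝ V]

/-- The quadratic form `v ↦ -‖v‖²`. -/
def negSq (V : Type*) [NormedAddCommGroup V] [InnerProductSpace ℝ V] : QuadraticForm ℝ V :=
  -(LinearMap.BilinMap.toQuadraticMap (innerₗ V))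

theorem negSq_apply (v : V) : negSq V v = -(‖v‖ ^ 2) := by
  simp [negSq, LinearMap.BilinMap.toQuadraticMap_apply]

/-- The Clifford algebra. -/
abbrev Cl (V : Type*) [NormedAddCommGroup V] [InnerProductSpace ℝ V] := CliffordAlgebra (negSq V)

/-- the inclusion of vectors -/
abbrev vec : V →ₗ[ℝ] Cl V := CliffordAlgebra.ι (negSq V)

theorem polar_negSq (u v : V) : QuadraticMap.polar (negSq V) u v = -(2 * inner ℝ u v) := by
  simp only [QuadraticMap.polar, negSq_apply]
  rw [@norm_add_sq_real V _ _ u v]
  ring

theorem vec_sq (v : V) : vec v * vec v = algebraMap ℝ (Cl V) (-(‖v‖ ^ 2)) := by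
  rw [ι_sq_scalar, negSq_apply]

theorem vec_sq_one {v : V} (hv : ‖v‖ = 1) : vec v * vec v = (-1 : Cl V) := by
  rw [vec_sq, hv]; simp

theorem vec_swap (u v : V) :
    vec u * vec v + vec v * vec u = algebraMap ℝ (Cl V) (-(2 * inner ℝ u v)) := by
  rw [ι_mul_ι_add_swap, polar_negSq]

theorem vec_anti {u v : V} (h : inner ℝ u v = 0) : vec u * vec v = -(vec v * vec u) := by
  have := vec_swap u v
  rw [h] at this
  simp only [mul_zero, neg_zero, map_zero] at this
  exact eq_neg_of_add_eq_zero_left this

instance : Nontrivial (Cl V) := inferInstance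

theorem scalar_inj : Function.Injective (algebraMap ℝ (Cl V)) := FaithfulSMul.algebraMap_injective _ _

theorem vec_inj : Function.Injective (vec : V → Cl V) := by
  rw [injective_iff_map_eq_zero]
  intro v hv
  have h := vec_sq v
  rw [hv, mul_zero] at h
  have h2 : (-(‖v‖ ^ 2) : ℝ) = 0 := scalar_inj (by rw [← h, map_zero])
  have h3 : ‖v‖ = 0 := by nlinarith
  exact norm_eq_zero.mp h3

/-- product of a list of vectors -/
def prodL (L : List V) : Cl V := (L.map vec).prod

@[simp] theorem prodL_nil : prodL ([] : List V) = 1 := rfl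
@[simp] theorem prodL_cons (v : V) (L : List V) : prodL (v :: L) = vec v * prodL L := by
  simp [prodL]
theorem prodL_append (L M : List V) : prodL (L ++ M) = prodL L * prodL M := by
  simp [prodL]

theorem involute_prodL (L : List V) : involute (prodL L) = (-1 : Cl V) ^ L.length * prodL L := by
  induction L with
  | nil => simp
  | cons v L ih =>
    rw [prodL_cons, map_mul, ih, involute_ι, List.length_cons, pow_succ]
    have : (-1 : Cl V) ^ L.length * prodL L = prodL L * (-1 : Cl V) ^ L.length := by
      exact (Commute.pow_left (Commute.neg_one_left _) _).eq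
    rw [this]
    have h2 : (-1 : Cl V) ^ L.length * (-1) * (vec v * prodL L) =
        -(vec v * prodL L * (-1 : Cl V) ^ L.length) := by
      rw [mul_neg_one, neg_mul, (Commute.pow_left (Commute.neg_one_left _) _).eq]
    rw [h2]
    noncomm_ring

theorem prodL_mul_reverse (L : List V) (h : ∀ v ∈ L, ‖v‖ = 1) :
    prodL L * prodL L.reverse = (-1 : Cl V) ^ L.length := by
  induction L with
  | nil => simp
  | cons v L ih =>
    rw [List.reverse_cons, prodL_append, prodL_cons, prodL_cons, prodL_nil, mul_one]
    have ih' := ih (fun w hw => h w (List.mem_cons_of_mem _ hw))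
    calc vec v * prodL L * (prodL L.reverse * vec v)
        = vec v * (prodL L * prodL L.reverse) * vec v := by simp only [mul_assoc]
      _ = vec v * (-1 : Cl V) ^ L.length * vec v := by rw [ih']
      _ = (-1 : Cl V) ^ L.length * (vec v * vec v) := by
          rw [← (Commute.pow_left (Commute.neg_one_left (vec v)) _).eq, mul_assoc]
      _ = (-1 : Cl V) ^ (v :: L).length := by
          rw [vec_sq_one (h v List.mem_cons_self), List.length_cons, pow_succ]

/-- `g` is a product of an even number of unit vectors. -/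
def IsSpin (g : Cl V) : Prop :=
  ∃ L : List V, (∀ v ∈ L, ‖v‖ = 1) ∧ Even L.length ∧ (L.map vec).prod = g

theorem IsSpin.mul {g h : Cl V} (hg : IsSpin g) (hh : IsSpin h) : IsSpin (g * h) := by
  obtain ⟨L, hL, eL, rfl⟩ := hg
  obtain ⟨M, hM, eM, rfl⟩ := hh
  refine ⟨L ++ M, ?_, ?_, ?_⟩
  · intro v hv
    rcases List.mem_append.mp hv with h | h
    · exact hL v h
    · exact hM v h
  · rw [List.length_append]; exact eL.add eM
  · simp

theorem IsSpin.one : IsSpin (1 : Cl V) := ⟨[], by simp, by simp, by simp⟩

/-- The units of the Clifford algebra which are products of an even number of unit vectors. -/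
def spinSet (V : Type*) [NormedAddCommGroup V] [InnerProductSpace ℝ V] : Set (Cl V)ˣ :=
  {u | IsSpin (u : Cl V)}

theorem spinSet_mul {a b : (Cl V)ˣ} (ha : a ∈ spinSet V) (hb : b ∈ spinSet V) :
    a * b ∈ spinSet V := by
  change IsSpin ((a * b : (Cl V)ˣ) : Cl V)
  rw [Units.val_mul]
  exact IsSpin.mul ha hb

theorem spinSet_one : (1 : (Cl V)ˣ) ∈ spinSet V := by
  change IsSpin ((1 : (Cl V)ˣ) : Cl V)
  rw [Units.val_one]
  exact IsSpin.one

theorem spinSet_inv {u : (Cl V)ˣ} (hu : u ∈ spinSet V) : u⁻¹ ∈ spinSet V := by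
  obtain ⟨L, hL, eL, h⟩ := hu
  change IsSpin ((u⁻¹ : (Cl V)ˣ) : Cl V)
  have h1 := prodL_mul_reverse L hL
  rw [eL.neg_one_pow] at h1
  have h2 : ((u⁻¹ : (Cl V)ˣ) : Cl V) = prodL L.reverse := by
    rw [← Units.mul_right_inj u, Units.mul_inv, ← h]
    exact h1.symm
  refine ⟨L.reverse, ?_, ?_, ?_⟩
  · intro v hv; exact hL v (List.mem_reverse.mp hv)
  · rwa [List.length_reverse]
  · rw [h2]; rfl

/-- The group `Spin(V)`: all products of an even number of unit vectors. -/
def Spin (V : Type*) [NormedAddCommGroup V] [InnerProductSpace ℝ V] : Subgroup (Cl V)ˣ where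
  carrier := spinSet V
  mul_mem' := spinSet_mul
  one_mem' := spinSet_one
  inv_mem' := spinSet_inv

theorem exists_unit {g : Cl V} (hg : IsSpin g) : ∃ u : Spin V, ((u : (Cl V)ˣ) : Cl V) = g := by
  obtain ⟨L, hL, eL, rfl⟩ := hg
  have h1 := prodL_mul_reverse L hL
  have h2 := prodL_mul_reverse L.reverse (fun v hv => hL v (List.mem_reverse.mp hv))
  rw [eL.neg_one_pow] at h1
  rw [List.length_reverse, eL.neg_one_pow, List.reverse_reverse] at h2
  refine ⟨⟨⟨prodL L, prodL L.reverse, h1, h2⟩, ?_⟩, rfl⟩
  exact ⟨L, hL, eL, rfl⟩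

/-! ### The rotation defined by a product of unit vectors -/

theorem vec_reflection {u : V} (hu : ‖u‖ = 1) (v : V) :
    vec u * vec v = vec ((ℝ ∙ u).reflection v) * vec u := by
  have h := vec_swap u v
  rw [Submodule.reflection_singleton_apply]
  simp only [hu]
  have h1 : (2 : ℕ) • ((inner ℝ u v / ((RCLike.ofReal (1 : ℝ) : ℝ) ^ 2)) • u) - v
      = (2 * inner ℝ u v) • u - v := by
    simp [two_smul, two_mul, add_smul]
  rw [h1, map_sub, map_smul, sub_mul, smul_mul_assoc, vec_sq_one hu, eq_sub_iff_add_eq, h]
  rw [Algebra.algebraMap_eq_smul_one, neg_smul, smul_neg]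

theorem exists_rot (L : List V) (hL : ∀ v ∈ L, ‖v‖ = 1) :
    ∃ T : V ≃ₗᵢ[ℝ] V, ∀ v, prodL L * vec v = vec (T v) * prodL L := by
  induction L with
  | nil => exact ⟨LinearIsometryEquiv.refl ℝ V, fun v => by simp⟩
  | cons u L ih =>
    obtain ⟨T, hT⟩ := ih (fun w hw => hL w (List.mem_cons_of_mem _ hw))
    refine ⟨T.trans ((ℝ ∙ u).reflection), fun v => ?_⟩
    rw [prodL_cons, mul_assoc, hT, ← mul_assoc, vec_reflection (hL u List.mem_cons_self), mul_assoc]
    rfl

/-! ### Orthonormal lists -/

theorem prodL_mul_orth (L : List V) (w : V) (h : ∀ v ∈ L, inner ℝ v w = 0) :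
    prodL L * vec w = (-1 : Cl V) ^ L.length * (vec w * prodL L) := by
  induction L with
  | nil => simp
  | cons v L ih =>
    have ih' := ih (fun x hx => h x (List.mem_cons_of_mem _ hx))
    have hv := vec_anti (h v List.mem_cons_self)
    rw [prodL_cons, mul_assoc, ih', List.length_cons, pow_succ]
    have c1 : vec v * (-1 : Cl V) ^ L.length = (-1 : Cl V) ^ L.length * vec v :=
      (Commute.pow_right (Commute.neg_one_right (vec v)) _).eq
    calc vec v * ((-1 : Cl V) ^ L.length * (vec w * prodL L))
        = (-1 : Cl V) ^ L.length * (vec v * vec w * prodL L) := by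
          rw [← mul_assoc, c1]; simp only [mul_assoc]
      _ = (-1 : Cl V) ^ L.length * -1 * (vec w * (vec v * prodL L)) := by
          rw [hv]; simp only [neg_mul, mul_neg, mul_one, mul_assoc]

theorem prodL_mul_mem (L : List V) (hu : ∀ v ∈ L, ‖v‖ = 1)
    (hp : L.Pairwise (fun a b => inner ℝ a b = 0)) (w : V) (hw : w ∈ L) :
    prodL L * vec w = -((-1 : Cl V) ^ L.length * (vec w * prodL L)) := by
  induction L with
  | nil => simp at hw
  | cons v L ih =>
    rw [List.pairwise_cons] at hp
    rcases List.mem_cons.mp hw with rfl | hw'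
    · have h1 := prodL_mul_orth L w (fun x hx => by rw [real_inner_comm]; exact hp.1 x hx)
      rw [prodL_cons, mul_assoc, h1, List.length_cons, pow_succ]
      have c1 : vec w * (-1 : Cl V) ^ L.length = (-1 : Cl V) ^ L.length * vec w :=
        (Commute.pow_right (Commute.neg_one_right (vec w)) _).eq
      rw [← mul_assoc, c1]
      simp only [mul_assoc, mul_neg, neg_mul, mul_one, one_mul, neg_neg]
    · have ih' := ih (fun x hx => hu x (List.mem_cons_of_mem _ hx)) hp.2 hw'
      have hv := vec_anti (hp.1 w hw')
      rw [prodL_cons, mul_assoc, ih', List.length_cons, pow_succ]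
      have c1 : vec v * (-1 : Cl V) ^ L.length = (-1 : Cl V) ^ L.length * vec v :=
        (Commute.pow_right (Commute.neg_one_right (vec v)) _).eq
      rw [mul_neg, ← mul_assoc, c1]
      have : (-1 : Cl V) ^ L.length * vec v * (vec w * prodL L)
          = (-1 : Cl V) ^ L.length * (vec v * vec w * prodL L) := by simp only [mul_assoc]
      rw [this, hv]
      simp only [mul_assoc, mul_neg, neg_mul, mul_one, one_mul, neg_neg]

theorem prodL_sq (L : List V) (hu : ∀ v ∈ L, ‖v‖ = 1)
    (hp : L.Pairwise (fun a b => inner ℝ a b = 0)) :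
    prodL L * prodL L = (-1 : Cl V) ^ (L.length * (L.length + 1) / 2) := by
  induction L with
  | nil => simp
  | cons v L ih =>
    rw [List.pairwise_cons] at hp
    have ih' := ih (fun x hx => hu x (List.mem_cons_of_mem _ hx)) hp.2
    have h1 := prodL_mul_orth L v (fun x hx => by rw [real_inner_comm]; exact hp.1 x hx)
    have hlen : ((v :: L).length * ((v :: L).length + 1) / 2)
        = L.length * (L.length + 1) / 2 + (L.length + 1) := by
      rw [List.length_cons]
      have : (L.length + 1) * (L.length + 1 + 1) = L.length * (L.length + 1) + (L.length + 1) * 2 := by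
        ring
      rw [this, Nat.add_mul_div_right _ _ (by norm_num)]
    rw [hlen, pow_add, ← ih', prodL_cons]
    have c1 : vec v * (-1 : Cl V) ^ L.length = (-1 : Cl V) ^ L.length * vec v :=
      (Commute.pow_right (Commute.neg_one_right (vec v)) _).eq
    calc vec v * prodL L * (vec v * prodL L)
        = vec v * (prodL L * vec v) * prodL L := by simp only [mul_assoc]
      _ = vec v * ((-1 : Cl V) ^ L.length * (vec v * prodL L)) * prodL L := by rw [h1]
      _ = (-1 : Cl V) ^ L.length * ((vec v * vec v) * (prodL L * prodL L)) := by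
          rw [← mul_assoc (vec v), c1]; simp only [mul_assoc]
      _ = (-1 : Cl V) ^ L.length * (-1 * (prodL L * prodL L)) := by
          rw [vec_sq_one (hu v List.mem_cons_self)]
      _ = prodL L * prodL L * (-1 : Cl V) ^ (L.length + 1) := by
          rw [pow_succ, (Commute.pow_right (Commute.neg_one_right (prodL L * prodL L)) _).mul_right
            (Commute.neg_one_right _) |>.eq]
          simp only [mul_assoc]

end

end Pool.Agent.R369.Spin
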