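import Pool.Agent.R369.Spin.Basic

namespace Pool.Agent.R369.Spin

noncomputable section

open CliffordAlgebra

variable {V : Type*} [NormedAddCommGroup V] [InnerProductSpace ℝ V]
variable {κ : Type*} [Fintype κ] [DecidableEq κ]

theorem sgn_sq (n : ℕ) : (-1 : Cl V) ^ n * (-1 : Cl V) ^ n = 1 := by
  rw [← pow_add, ← two_mul, pow_mul]; simp

/-- monomial in the basis vectors -/
def mono (b : OrthonormalBasis κ ℝ V) (l : List κ) : Cl V := prodL (l.map b)

@[simp] theorem mono_nil (b : OrthonormalBasis κ ℝ V) : mono b [] = 1 := rfl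
@[simp] theorem mono_cons (b : OrthonormalBasis κ ℝ V) (k : κ) (l : List κ) :
    mono b (k :: l) = vec (b k) * mono b l := by simp [mono]
theorem mono_append (b : OrthonormalBasis κ ℝ V) (l l' : List κ) :
    mono b (l ++ l') = mono b l * mono b l' := by simp [mono, prodL_append]

theorem mono_span (b : OrthonormalBasis κ ℝ V) (z : Cl V) :
    z ∈ Submodule.span ℝ (Set.range (mono b)) := by
  induction z using CliffordAlgebra.induction with
  | algebraMap r =>
    rw [Algebra.algebraMap_eq_smul_one]
    exact Submodule.smul_mem _ _ (Submodule.subset_span ⟨[], rfl⟩)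
  | ι v =>
    have : v = ∑ k, b.repr v k • b k := (b.sum_repr v).symm
    rw [this, map_sum]
    refine Submodule.sum_mem _ (fun k _ => ?_)
    rw [map_smul]
    exact Submodule.smul_mem _ _ (Submodule.subset_span ⟨[k], by simp⟩)
  | mul x y hx hy =>
    have h1 : x * y ∈ Submodule.span ℝ (Set.range (mono b)) * Submodule.span ℝ (Set.range (mono b)) :=
      Submodule.mul_mem_mul hx hy
    rw [Submodule.span_mul_span] at h1
    refine Submodule.span_mono ?_ h1
    rintro _ ⟨_, ⟨l, rfl⟩, _, ⟨l', rfl⟩, rfl⟩
    exact ⟨l ++ l', mono_append b l l'⟩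
  | add x y hx hy => exact Submodule.add_mem _ hx hy

/-- `z ↦ e involute(z) e⁻¹` for a unit vector `e`. -/
def conjMap (e : V) : Cl V →ₗ[ℝ] Cl V :=
  (LinearMap.mulLeft ℝ (vec e)) ∘ₗ (LinearMap.mulRight ℝ (-vec e)) ∘ₗ (involute (Q := negSq V)).toLinearMap

theorem conjMap_apply (e : V) (z : Cl V) : conjMap e z = vec e * (involute z * -vec e) := rfl

theorem conjMap_mul {e : V} (he : ‖e‖ = 1) (y z : Cl V) :
    conjMap e (y * z) = conjMap e y * conjMap e z := by
  simp only [conjMap_apply, map_mul]
  have h := vec_sq_one he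
  calc vec e * (involute y * involute z * -vec e)
      = vec e * involute y * (-(-1)) * involute z * -vec e := by noncomm_ring
    _ = vec e * involute y * (-(vec e * vec e)) * involute z * -vec e := by rw [h]
    _ = vec e * (involute y * -vec e) * (vec e * (involute z * -vec e)) := by noncomm_ring

theorem conjMap_one {e : V} (he : ‖e‖ = 1) : conjMap e (1 : Cl V) = 1 := by
  rw [conjMap_apply, map_one, one_mul, mul_neg, vec_sq_one he, neg_neg]

theorem conjMap_vec_self {e : V} (he : ‖e‖ = 1) : conjMap e (vec e) = -vec e := by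
  rw [conjMap_apply, involute_ι]
  have h := vec_sq_one he
  rw [neg_mul_neg, h, mul_neg_one]

theorem conjMap_vec_orth {e v : V} (he : ‖e‖ = 1) (h : inner ℝ v e = 0) :
    conjMap e (vec v) = vec v := by
  rw [conjMap_apply, involute_ι, neg_mul_neg, vec_anti h, mul_neg, ← mul_assoc, vec_sq_one he]
  simp

theorem conjMap_mono (b : OrthonormalBasis κ ℝ V) (k : κ) (l : List κ) :
    conjMap (b k) (mono b l) = (-1 : ℝ) ^ (l.count k) • mono b l := by
  induction l with
  | nil => simp [conjMap_one (b.norm_eq_one k)]
  | cons j l ih =>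
    rw [mono_cons, conjMap_mul (b.norm_eq_one k), ih]
    by_cases h : j = k
    · subst h
      rw [conjMap_vec_self (b.norm_eq_one j), List.count_cons_self, pow_succ]
      simp
    · rw [conjMap_vec_orth (b.norm_eq_one k) (b.orthonormal.2 h), List.count_cons_of_ne h]
      simp

theorem vec_mono_comm (b : OrthonormalBasis κ ℝ V) (k : κ) (l : List κ) (h : k ∉ l) :
    ∃ c : ℝ, vec (b k) * mono b l = c • (mono b l * vec (b k)) := by
  have h1 := conjMap_mono b k l
  rw [List.count_eq_zero_of_not_mem h, pow_zero, one_smul, conjMap_apply, mono, involute_prodL,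
    List.length_map] at h1
  refine ⟨(-1) ^ l.length, ?_⟩
  have h2 := prodL_mul_orth (l.map b) (b k) (by
    intro v hv
    obtain ⟨j, hj, rfl⟩ := List.mem_map.mp hv
    exact b.orthonormal.2 (fun e => h (e ▸ hj)))
  rw [mono, h2, List.length_map]
  rw [show ((-1 : ℝ) ^ l.length) • ((-1 : Cl V) ^ l.length * (vec (b k) * prodL (l.map b)))
    = ((-1 : Cl V) ^ l.length * (-1 : Cl V) ^ l.length) * (vec (b k) * prodL (l.map b)) by
      rw [Algebra.smul_def, map_pow, map_neg, map_one, mul_assoc]]
  rw [sgn_sq, one_mul]

theorem mono_even (b : OrthonormalBasis κ ℝ V) : ∀ (n : ℕ) (l : List κ), l.length ≤ n →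
    (∀ k, Even (l.count k)) → ∃ c : ℝ, mono b l = algebraMap ℝ _ c := by
  intro n
  induction n with
  | zero =>
    intro l hl _
    have : l = [] := List.length_eq_zero_iff.mp (by omega)
    subst this
    exact ⟨1, by simp⟩
  | succ n ih =>
    intro l hl hev
    cases l with
    | nil => exact ⟨1, by simp⟩
    | cons a l =>
      have ha : a ∈ l := by
        have h1 := hev a
        rw [List.count_cons_self] at h1
        by_contra hc
        rw [List.count_eq_zero_of_not_mem hc] at h1
        simp at h1
      obtain ⟨s, t, hst, hs⟩ : ∃ s t, l = s ++ a :: t ∧ a ∉ s := by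
        obtain ⟨s, t, h, h'⟩ := List.eq_append_cons_of_mem ha
        exact ⟨s, t, h, h'⟩
      subst hst
      obtain ⟨c, hc⟩ := vec_mono_comm b a s hs
      obtain ⟨c', hc'⟩ := ih (s ++ t) (by simp at hl ⊢; omega) (by
        intro k
        have h1 := hev k
        by_cases hk : k = a
        · subst hk
          simp only [List.count_cons_self, List.count_append] at h1 ⊢
          rw [Nat.even_iff] at h1 ⊢
          omega
        · simpa [List.count_cons, List.count_append, Ne.symm hk] using h1)
      refine ⟨-(c * c'), ?_⟩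
      rw [mono_cons, mono_append, mono_cons, ← mul_assoc, hc, smul_mul_assoc, mul_assoc,
        ← mul_assoc (vec (b a)) (vec (b a)), vec_sq_one (b.norm_eq_one a), neg_one_mul, mul_neg,
        ← mono_append, hc', map_neg, map_mul, smul_neg, Algebra.smul_def]

theorem span_even (b : OrthonormalBasis κ ℝ V) (y : Cl V) (hy : ∀ k, conjMap (b k) y = y)
    (s : Finset κ) :
    y ∈ Submodule.span ℝ (mono b '' {l | ∀ k ∈ s, Even (l.count k)}) := by
  induction s using Finset.induction_on with
  | empty => simpa using mono_span b y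
  | insert k s _ ih =>
    have h1 : y = (1 / 2 : ℝ) • (y + conjMap (b k) y) := by
      rw [hy k, ← two_smul ℝ y, smul_smul]; norm_num
    have key : ∀ z ∈ Submodule.span ℝ (mono b '' {l | ∀ j ∈ s, Even (l.count j)}),
        z + conjMap (b k) z ∈
          Submodule.span ℝ (mono b '' {l | ∀ j ∈ insert k s, Even (l.count j)}) := by
      intro z hz
      induction hz using Submodule.span_induction with
      | mem x hx =>
        obtain ⟨l, hl, rfl⟩ := hx
        rw [conjMap_mono]
        rcases Nat.even_or_odd (l.count k) with h | h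
        · rw [h.neg_one_pow, one_smul, ← two_smul ℝ]
          refine Submodule.smul_mem _ _ (Submodule.subset_span ⟨l, ?_, rfl⟩)
          intro j hj
          rcases Finset.mem_insert.mp hj with rfl | hj
          · exact h
          · exact hl j hj
        · rw [h.neg_one_pow, neg_smul, one_smul, add_neg_cancel]
          exact Submodule.zero_mem _
      | zero => simp
      | add x y _ _ hx hy =>
        have : x + y + conjMap (b k) (x + y) = (x + conjMap (b k) x) + (y + conjMap (b k) y) := by
          rw [map_add]; abel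
        rw [this]; exact Submodule.add_mem _ hx hy
      | smul a x _ hx =>
        have : a • x + conjMap (b k) (a • x) = a • (x + conjMap (b k) x) := by
          rw [map_smul, smul_add]
        rw [this]; exact Submodule.smul_mem _ _ hx
    rw [h1]
    exact Submodule.smul_mem _ _ (key y ih)

/-- **Kernel of the twisted adjoint action.** -/
theorem scalar_of_twisted (b : OrthonormalBasis κ ℝ V) (y : Cl V)
    (h : ∀ v : V, vec v * y = involute y * vec v) : ∃ c : ℝ, y = algebraMap ℝ _ c := by
  have hy : ∀ k, conjMap (b k) y = y := by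
    intro k
    have h1 := h (b k)
    rw [conjMap_apply]
    have h2 : vec (b k) * involute y = y * vec (b k) := by
      have h3 := congrArg involute h1
      rw [map_mul, map_mul, involute_involute, involute_ι] at h3
      simpa using h3
    rw [← mul_assoc, h2, mul_assoc, mul_neg, vec_sq_one (b.norm_eq_one k), neg_neg, mul_one]
  have h1 := span_even b y hy Finset.univ
  have h2 : ∀ z ∈ Submodule.span ℝ (mono b '' {l | ∀ k ∈ (Finset.univ : Finset κ),
      Even (l.count k)}), ∃ c : ℝ, z = algebraMap ℝ (Cl V) c := by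
    intro z hz
    induction hz using Submodule.span_induction with
    | mem x hx =>
      obtain ⟨l, hl, rfl⟩ := hx
      exact mono_even b l.length l le_rfl (fun k => hl k (Finset.mem_univ k))
    | zero => exact ⟨0, by simp⟩
    | add x y _ _ hx hy =>
      obtain ⟨c, rfl⟩ := hx; obtain ⟨d, rfl⟩ := hy
      exact ⟨c + d, by simp⟩
    | smul a x _ hx =>
      obtain ⟨c, rfl⟩ := hx
      exact ⟨a * c, by rw [map_mul, Algebra.smul_def]⟩
  exact h2 y h1

/-- **Key divisibility.** If `g` is a product of an even number of unit vectors, `g² = 1` and `g`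
induces the rotation `T`, then `T² = 1` and the dimension of the `(-1)`-eigenspace of `T` is
divisible by `4`. -/
theorem rot_invol {g : Cl V} (hgg : g * g = 1)
    (T : V ≃ₗᵢ[ℝ] V) (hT : ∀ v, g * vec v = vec (T v) * g) (v : V) : T (T v) = v := by
  apply vec_inj
  have h1 : g * (g * vec v) = vec (T (T v)) * (g * g) := by
    rw [hT, ← mul_assoc, hT, mul_assoc]
  rw [← mul_assoc, hgg, one_mul, mul_one] at h1
  exact h1.symm

theorem four_dvd [FiniteDimensional ℝ V] {g : Cl V} (hg : IsSpin g) (hgg : g * g = 1)
    (T : V ≃ₗᵢ[ℝ] V) (hT : ∀ v, g * vec v = vec (T v) * g) :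
    4 ∣ Module.finrank ℝ (LinearMap.ker ((T.toLinearEquiv : V →ₗ[ℝ] V) + LinearMap.id)) := by
  set E := LinearMap.ker ((T.toLinearEquiv : V →ₗ[ℝ] V) + LinearMap.id) with hE
  have memE : ∀ v, v ∈ E ↔ T v = -v := by
    intro v
    rw [hE, LinearMap.mem_ker]
    simp only [LinearMap.add_apply, LinearMap.id_apply]
    exact add_eq_zero_iff_eq_neg
  have hTT := rot_invol hgg T hT
  -- on the orthogonal complement T = 1
  have horth : ∀ w, (∀ v ∈ E, inner ℝ v w = 0) → T w = w := by
    intro w hw
    have h1 : w - T w ∈ E := by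
      rw [memE, map_sub, hTT]; abel
    have h2 := hw _ h1
    have h3 : inner ℝ (w - T w) (T w) = 0 := by
      have h4 : inner ℝ (T (w - T w)) (T w) = inner ℝ (w - T w) w := T.inner_map_map _ _
      rw [(memE _).mp h1, inner_neg_left, h2, neg_eq_zero] at h4
      exact h4
    have h5 : inner ℝ (w - T w) (w - T w) = 0 := by
      rw [inner_sub_right, h2, h3, sub_zero]
    have h6 := inner_self_eq_zero.mp h5
    exact (sub_eq_zero.mp h6).symm
  -- orthonormal basis of E
  let e := stdOrthonormalBasis ℝ E
  set s := Module.finrank ℝ E with hs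
  let L : List V := (List.finRange s).map (fun k => ((e k : E) : V))
  have hLlen : L.length = s := by simp [L]
  have hLu : ∀ v ∈ L, ‖v‖ = 1 := by
    intro v hv
    obtain ⟨k, _, rfl⟩ := List.mem_map.mp hv
    have h0 := e.norm_eq_one k
    rw [Submodule.coe_norm] at h0
    exact h0
  have hLE : ∀ v ∈ L, v ∈ E := by
    intro v hv
    obtain ⟨k, _, rfl⟩ := List.mem_map.mp hv
    exact (e k).2
  have hLp : L.Pairwise (fun a b => inner ℝ a b = 0) := by
    refine List.Pairwise.map _ ?_ (List.nodup_finRange s)
    intro a b hab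
    have h0 : inner ℝ (e a) (e b) = 0 := e.orthonormal.2 hab
    rwa [Submodule.coe_inner] at h0
  have hspan : ∀ v : V, ∃ c : Fin s → ℝ, ∃ w : V, (∀ x ∈ E, inner ℝ x w = 0) ∧
      v = ∑ k, c k • ((e k : E) : V) + w := by
    intro v
    refine ⟨fun k => inner ℝ ((e k : E) : V) v, v - E.starProjection v, ?_, ?_⟩
    · intro x hx
      exact (E.sub_starProjection_mem_orthogonal v) x hx
    · have h1 : E.starProjection v = ∑ k, inner ℝ ((e k : E) : V) v • ((e k : E) : V) := by
        have h2 := e.sum_repr (E.orthogonalProjectionOnto v)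
        have h3 := congrArg (Submodule.subtype E) h2
        rw [map_sum] at h3
        rw [Submodule.starProjection_apply]
        rw [show ((E.orthogonalProjectionOnto v : E) : V) = E.subtype (E.orthogonalProjectionOnto v) from rfl,
          ← h3]
        refine Finset.sum_congr rfl (fun k _ => ?_)
        rw [map_smul, e.repr_apply_apply]
        congr 1
        rw [Submodule.inner_orthogonalProjectionOnto_eq_of_mem_left]
      rw [← h1]; abel
  set h := prodL L with hh
  have hcomm : ∀ v, h * vec v = (-1 : Cl V) ^ s * (vec (T v) * h) := by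
    intro v
    obtain ⟨c, w, hw, rfl⟩ := hspan v
    have hw2 : T w = w := horth w hw
    have hek : ∀ k, T ((e k : E) : V) = -((e k : E) : V) := fun k => (memE _).mp (e k).2
    rw [map_add, map_add, map_add, mul_add, add_mul, mul_add, hw2]
    congr 1
    · rw [map_sum, map_sum, map_sum, Finset.mul_sum, Finset.sum_mul, Finset.mul_sum]
      refine Finset.sum_congr rfl (fun k _ => ?_)
      rw [map_smul, map_smul, map_smul, hek, mul_smul_comm, smul_mul_assoc, mul_smul_comm]
      congr 1
      have := prodL_mul_mem L hLu hLp ((e k : E) : V) (List.mem_map.mpr ⟨k, by simp, rfl⟩)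
      rw [hLlen] at this
      rw [hh, this, map_neg, neg_mul, mul_neg]
    · have := prodL_mul_orth L w (fun v hv => hw v (hLE v hv))
      rw [hLlen] at this
      exact this
  -- y = g h
  obtain ⟨Lg, hLg, eLg, hgL⟩ := hg
  have hginv : involute g = g := by
    rw [← hgL]
    have := involute_prodL Lg
    rw [eLg.neg_one_pow, one_mul] at this
    exact this
  have hhinv : involute h = (-1 : Cl V) ^ s * h := by
    rw [hh, involute_prodL, hLlen]
  have cs : ∀ z : Cl V, z * (-1 : Cl V) ^ s = (-1 : Cl V) ^ s * z := fun z =>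
    (Commute.pow_right (Commute.neg_one_right z) _).eq
  have hss : (-1 : Cl V) ^ s * (-1 : Cl V) ^ s = 1 := sgn_sq s
  have hy : ∀ v, vec v * (g * h) = involute (g * h) * vec v := by
    intro v
    rw [map_mul, hginv, hhinv]
    calc vec v * (g * h) = vec (T (T v)) * g * h := by rw [hTT, mul_assoc]
      _ = g * (vec (T v) * h) := by rw [← hT, mul_assoc]
      _ = g * (((-1 : Cl V) ^ s * (-1 : Cl V) ^ s) * (vec (T v) * h)) := by rw [hss, one_mul]
      _ = g * ((-1 : Cl V) ^ s * ((-1 : Cl V) ^ s * (vec (T v) * h))) := by rw [mul_assoc]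
      _ = g * ((-1 : Cl V) ^ s * (h * vec v)) := by rw [hcomm]
      _ = g * ((-1 : Cl V) ^ s * h) * vec v := by simp only [mul_assoc]
  obtain ⟨c, hc⟩ := scalar_of_twisted (stdOrthonormalBasis ℝ V) (g * h) hy
  have hsq := prodL_sq L hLu hLp
  rw [hLlen, ← hh] at hsq
  -- h = g * c
  have hhc : h = algebraMap ℝ _ c * g := by
    calc h = g * g * h := by rw [hgg, one_mul]
      _ = g * (g * h) := by rw [mul_assoc]
      _ = algebraMap ℝ _ c * g := by rw [hc, Algebra.commutes]
  have hcc : algebraMap ℝ (Cl V) (c * c) = algebraMap ℝ (Cl V) ((-1) ^ (s * (s + 1) / 2)) := by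
    rw [map_pow, map_neg, map_one, ← hsq]
    conv_rhs => rw [hhc]
    rw [mul_assoc, ← mul_assoc g, ← Algebra.commutes, mul_assoc, hgg, mul_one, map_mul]
  have hcc' := scalar_inj hcc
  have hcne : c ≠ 0 := by
    intro h0
    rw [h0, mul_zero] at hcc'
    exact (pow_ne_zero _ (by norm_num : (-1 : ℝ) ≠ 0)) hcc'.symm
  -- s is even
  have hse : Even s := by
    by_contra hodd
    rw [Nat.not_even_iff_odd] at hodd
    have h1 : involute (g * h) = g * h := by rw [hc]; exact AlgHom.commutes _ _
    rw [map_mul, hginv, hhinv, hodd.neg_one_pow, neg_one_mul, mul_neg, hc, ← map_neg] at h1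
    have h2 := scalar_inj h1
    apply hcne; linarith
  have hse2 : Even (s * (s + 1) / 2) := by
    by_contra hodd
    rw [Nat.not_even_iff_odd] at hodd
    rw [hodd.neg_one_pow] at hcc'
    nlinarith [mul_self_nonneg c]
  obtain ⟨r, hr⟩ := hse
  have h5 : s * (s + 1) / 2 = r * (2 * r + 1) := by
    rw [hr, show (r + r) * (r + r + 1) = (r * (2 * r + 1)) * 2 by ring]
    exact Nat.mul_div_cancel _ (by norm_num)
  rw [h5, Nat.even_mul] at hse2
  rcases hse2 with h6 | h6
  · obtain ⟨q, hq⟩ := h6
    exact ⟨q, by omega⟩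
  · exfalso
    rw [Nat.even_iff] at h6; omega

end

end Pool.Agent.R369.Spin
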