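import Pool.Agent.R369.Spin.Suff

/-!
# MP_aa0c4d_al: the criterion, working form (see the hand-in `Criterion`)

`SpinGroup n` is the group of all products of an even number of unit vectors of `ℝⁿ` inside the
Clifford algebra `C n` of the form `v ↦ -‖v‖²`.  For an element `x` conjugate to the normal form
with parameters `lam j, mu j` (`j < n/2`) we determine whether `x` is strongly reversible in terms
of `n`, the number `a` of planes with `lam j = 0` and the number `b` of planes with `mu j = 0`.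
(Formalisation of a paper proof of helper801.)
-/

namespace Pool.Agent.R369.Spin.Main

open Pool.Agent.R369.Spin

noncomputable section

/-- The Clifford algebra `C_n` of `ℝⁿ` with the form `v ↦ -‖v‖²`, so `e_i² = -1`. -/
abbrev C (n : ℕ) := CliffordAlgebra (negSq (EuclideanSpace ℝ (Fin n)))

/-- The generator `e_i` (indices starting from `0`). -/
def e (n : ℕ) (i : Fin n) : C n :=
  CliffordAlgebra.ι (negSq (EuclideanSpace ℝ (Fin n))) (EuclideanSpace.single i (1 : ℝ))

/-- `Spin(n)`: the products of an even number of unit vectors. -/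
abbrev SpinGroup (n : ℕ) : Subgroup (C n)ˣ := Spin (EuclideanSpace ℝ (Fin n))

theorem lo_lt {n : ℕ} (j : Fin (n / 2)) : 2 * (j : ℕ) < n := by omega

theorem hi_lt {n : ℕ} (j : Fin (n / 2)) : 2 * (j : ℕ) + 1 < n := by omega

/-- The element `l + u e_{2j} e_{2j+1}` (indices from `0`). -/
def factor (n : ℕ) (l u : ℝ) (j : Fin (n / 2)) : C n :=
  algebraMap ℝ (C n) l + u • (e n ⟨2 * j, lo_lt j⟩ * e n ⟨2 * j + 1, hi_lt j⟩)

/-- The normal form `∏_j (lam_j + mu_j e_{2j} e_{2j+1})`, `j < n/2` (indices from `0`). -/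
def normalForm (n : ℕ) (lam mu : Fin (n / 2) → ℝ) : C n :=
  (List.ofFn (fun j : Fin (n / 2) => factor n (lam j) (mu j) j)).prod

/-- An element of `Spin(n)` seen in the Clifford algebra. -/
def toC {n : ℕ} (x : SpinGroup n) : C n := ((x : (C n)ˣ) : C n)

/-- `x` is conjugate in `Spin(n)` to the normal form with parameters `lam, mu`. -/
def HasNormalForm {n : ℕ} (x : SpinGroup n) (lam mu : Fin (n / 2) → ℝ) : Prop :=
  ∃ k : SpinGroup n, toC (k * x * k⁻¹) = normalForm n lam mu

/-- `x` is conjugated to its inverse by some `g` with `g² = 1`. -/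
def StronglyReversible {n : ℕ} (x : SpinGroup n) : Prop :=
  ∃ g : SpinGroup n, g * g = 1 ∧ g * x * g⁻¹ = x⁻¹

/-- The number of `j` with `f j = 0`. -/
def zeros {m : ℕ} (f : Fin m → ℝ) : ℕ := (Finset.univ.filter (fun j => f j = 0)).card

/-- The criterion. -/
def Crit (n a b : ℕ) : Prop :=
  2 ≤ b ∨ (b = 1 ∧ (n % 2 = 1 ∨ 2 ≤ a ∨ n % 8 ≠ 4)) ∨
    (b = 0 ∧ n % 2 = 1 ∧ (2 ≤ a ∨ n % 8 = 1 ∨ n % 8 = 7)) ∨
    (b = 0 ∧ n % 2 = 0 ∧ (n % 8 = 0 ∨ (2 ≤ a ∧ n % 4 = 0)))

/-- the indices arranged in planes -/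
def toFin (n : ℕ) : Idx (n / 2) (n % 2) → Fin n
  | .inl (j, false) => ⟨2 * j, by omega⟩
  | .inl (j, true) => ⟨2 * j + 1, by omega⟩
  | .inr i => ⟨2 * (n / 2) + i, by omega⟩

theorem toFin_bij (n : ℕ) : Function.Bijective (toFin n) := by
  rw [Fintype.bijective_iff_injective_and_card]
  constructor
  · intro x y hxy
    rcases x with ⟨j, s⟩ | i <;> rcases y with ⟨k, t⟩ | i'
    · cases s <;> cases t <;> simp only [toFin, Fin.mk.injEq] at hxy
      · have : j = k := Fin.ext (by omega)
        rw [this]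
      · omega
      · omega
      · have : j = k := Fin.ext (by omega)
        rw [this]
    · have := j.2
      cases s <;> simp only [toFin, Fin.mk.injEq] at hxy <;> omega
    · have := k.2
      cases t <;> simp only [toFin, Fin.mk.injEq] at hxy <;> omega
    · simp only [toFin, Fin.mk.injEq] at hxy
      have : i = i' := Fin.ext (by omega)
      rw [this]
  · simp only [Idx, Fintype.card_sum, Fintype.card_prod, Fintype.card_fin, Fintype.card_bool]
    omega

/-- the standard basis arranged in planes -/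
def stdB (n : ℕ) : OrthonormalBasis (Idx (n / 2) (n % 2)) ℝ (EuclideanSpace ℝ (Fin n)) :=
  (EuclideanSpace.basisFun (Fin n) ℝ).reindex (Equiv.ofBijective (toFin n) (toFin_bij n)).symm

theorem stdB_apply (n : ℕ) (i : Idx (n / 2) (n % 2)) :
    stdB n i = EuclideanSpace.single (toFin n i) (1 : ℝ) := by
  simp [stdB]

theorem normalForm_eq (n : ℕ) (lam mu : Fin (n / 2) → ℝ) :
    normalForm n lam mu = nf (stdB n) lam mu := by
  unfold normalForm nf facL
  rw [List.ofFn_eq_map]
  congr 2
  funext j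
  unfold fac factor
  rw [stdB_apply, stdB_apply]
  rfl

theorem arith {m r a b : ℕ} (hr : r < 2) (hab : a + b ≤ m) (h : Crit (2 * m + r) a b) :
    ∃ s t : ℕ, (s = 0 ∨ (s = 2 ∧ 2 ≤ a)) ∧ t ≤ 2 * b + r ∧ 4 ∣ (m - b) + s + t := by
  unfold Crit at h
  by_cases h1 : (4 - (m - b) % 4) % 4 ≤ 2 * b + r
  · exact ⟨0, (4 - (m - b) % 4) % 4, Or.inl rfl, h1, by omega⟩
  · by_cases h2 : 2 ≤ a ∧ (4 - (m - b + 2) % 4) % 4 ≤ 2 * b + r
    · exact ⟨2, (4 - (m - b + 2) % 4) % 4, Or.inr ⟨rfl, h2.1⟩, h2.2, by omega⟩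
    · exfalso
      omega

/-- **MP_aa0c4d_al, Q1.** For `n ≥ 2` and real `lam_j, mu_j` with `lam_j² + mu_j² = 1` the normal
form is an element of `Spin(n)`, and an element `x` of `Spin(n)` conjugate to it is strongly
reversible if and only if `Crit n a b` holds, `a` and `b` being the numbers of `j` with
`lam_j = 0` and with `mu_j = 0`. -/
theorem main (n : ℕ) (_hn : 2 ≤ n) (lam mu : Fin (n / 2) → ℝ)
    (h : ∀ j, lam j ^ 2 + mu j ^ 2 = 1) :
    (∃ X : SpinGroup n, toC X = normalForm n lam mu) ∧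
    ∀ x : SpinGroup n, HasNormalForm x lam mu →
      (StronglyReversible x ↔ Crit n (zeros lam) (zeros mu)) := by
  unfold zeros
  have hS := nf_isSpin (stdB n) lam mu h
  refine ⟨?_, ?_⟩
  · rw [normalForm_eq]; exact exists_unit hS
  intro x hx
  obtain ⟨k, hk⟩ := hx
  rw [normalForm_eq] at hk
  unfold toC at hk
  set X : SpinGroup n := k * x * k⁻¹ with hX
  have hXinv : (((X⁻¹ : SpinGroup n) : (C n)ˣ) : C n) = nf (stdB n) lam (fun j => -mu j) := by
    have h1 : ((X : (C n)ˣ) : C n) * (((X⁻¹ : SpinGroup n) : (C n)ˣ) : C n) = 1 := by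
      rw [← Units.val_mul, ← Subgroup.coe_mul, mul_inv_cancel]; rfl
    have h2 := nf_inv' (stdB n) lam mu h
    calc (((X⁻¹ : SpinGroup n) : (C n)ˣ) : C n)
        = (nf (stdB n) lam (fun j => -mu j) * nf (stdB n) lam mu) *
            (((X⁻¹ : SpinGroup n) : (C n)ˣ) : C n) := by rw [h2, one_mul]
      _ = nf (stdB n) lam (fun j => -mu j) *
            (((X : (C n)ˣ) : C n) * (((X⁻¹ : SpinGroup n) : (C n)ˣ) : C n)) := by
          rw [hk, mul_assoc]
      _ = _ := by rw [h1, mul_one]
  -- conjugation invariance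
  have hconj : StronglyReversible x ↔ StronglyReversible X := by
    constructor
    · rintro ⟨g, h1, h2⟩
      refine ⟨k * g * k⁻¹, ?_, ?_⟩
      · calc k * g * k⁻¹ * (k * g * k⁻¹) = k * (g * g) * k⁻¹ := by group
          _ = 1 := by rw [h1]; group
      · calc k * g * k⁻¹ * X * (k * g * k⁻¹)⁻¹ = k * (g * x * g⁻¹) * k⁻¹ := by rw [hX]; group
          _ = X⁻¹ := by rw [h2, hX]; group
    · rintro ⟨g, h1, h2⟩
      refine ⟨k⁻¹ * g * k, ?_, ?_⟩
      · calc k⁻¹ * g * k * (k⁻¹ * g * k) = k⁻¹ * (g * g) * k := by group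
          _ = 1 := by rw [h1]; group
      · calc k⁻¹ * g * k * x * (k⁻¹ * g * k)⁻¹ = k⁻¹ * (g * X * g⁻¹) * k := by rw [hX]; group
          _ = x⁻¹ := by rw [h2, hX]; group
  rw [hconj]
  set a := (Finset.univ.filter (fun j => lam j = 0)).card with ha
  set b := (Finset.univ.filter (fun j => mu j = 0)).card with hb
  have hn2 : 2 * (n / 2) + n % 2 = n := Nat.div_add_mod n 2
  have hr : n % 2 < 2 := Nat.mod_lt _ (by norm_num)
  have hab : a + b ≤ n / 2 := by
    have hd : Disjoint (Finset.univ.filter (fun j => lam j = 0))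
        (Finset.univ.filter (fun j => mu j = 0)) := by
      rw [Finset.disjoint_left]
      intro j h1 h2
      simp only [Finset.mem_filter, Finset.mem_univ, true_and] at h1 h2
      have := h j
      rw [h1, h2] at this
      norm_num at this
    have h1 := Finset.card_union_of_disjoint hd
    have h2 := Finset.card_le_univ ((Finset.univ.filter (fun j => lam j = 0)) ∪
      (Finset.univ.filter (fun j => mu j = 0)))
    rw [h1, Fintype.card_fin] at h2
    exact h2
  constructor
  · rintro ⟨g, h1, h2⟩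
    have hgI : g⁻¹ = g := inv_eq_of_mul_eq_one_left h1
    rw [hgI] at h2
    have e1 : ((g : (C n)ˣ) : C n) * ((g : (C n)ˣ) : C n) = 1 := by
      rw [← Units.val_mul, ← Subgroup.coe_mul, h1]; rfl
    have e2 : ((g : (C n)ˣ) : C n) * nf (stdB n) lam mu * ((g : (C n)ˣ) : C n) =
        nf (stdB n) lam (fun j => -mu j) := by
      rw [← hXinv, ← h2, ← hk]; rfl
    obtain ⟨p1, q1, p2, q2, d1, d2, h3, h4, h5, h6⟩ :=
      necessity (stdB n) lam mu h _ g.2 e1 e2
    rw [← hb] at h3
    rw [← ha] at h4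
    rw [hn2] at h5 h6
    unfold Crit
    omega
  · intro hc
    rw [← hn2] at hc
    obtain ⟨s, t, hs, ht, h4⟩ := arith hr hab hc
    have hcard : (Finset.univ.filter (fun j => mu j ≠ 0)).card = n / 2 - b := by
      have h1 := Finset.card_filter_add_card_filter_not (s := (Finset.univ : Finset (Fin (n / 2))))
        (fun j => mu j = 0)
      rw [Finset.card_univ, Fintype.card_fin, ← hb] at h1
      have h2 : (Finset.univ.filter (fun j => ¬ mu j = 0)).card =
        (Finset.univ.filter (fun j => mu j ≠ 0)).card := rfl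
      omega
    obtain ⟨A, hA, hAc⟩ : ∃ A ⊆ Finset.univ.filter (fun j => lam j = 0), A.card = s := by
      refine Finset.exists_subset_card_eq ?_
      rcases hs with rfl | ⟨rfl, h2⟩
      · exact Nat.zero_le _
      · exact h2
    obtain ⟨g, g1, g2, g3⟩ := sufficiency (stdB n) lam mu h A
      (fun j hj => by have := hA hj; simpa using this)
      (by rw [hAc]; rcases hs with rfl | ⟨rfl, _⟩ <;> decide) t ht
      (by rw [hcard, hAc]; exact h4)
    obtain ⟨G, hG⟩ := exists_unit g1
    have hGG : G * G = 1 := by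
      apply Subtype.ext
      apply Units.ext
      change ((G : (C n)ˣ) : C n) * ((G : (C n)ˣ) : C n) = 1
      rw [hG, g2]
    refine ⟨G, hGG, ?_⟩
    have hGI : G⁻¹ = G := inv_eq_of_mul_eq_one_left hGG
    rw [hGI]
    apply Subtype.ext
    apply Units.ext
    rw [hXinv, ← g3, ← hG, ← hk]
    rfl

end

end Pool.Agent.R369.Spin.Main
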