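import Pool.Agent.R369.Spin.Rot

namespace Pool.Agent.R369.Spin

noncomputable section

open CliffordAlgebra

variable {V : Type*} [NormedAddCommGroup V] [InnerProductSpace ℝ V] [FiniteDimensional ℝ V]
variable {κ : Type*} [Fintype κ] [DecidableEq κ]

/-- coordinate projection -/
def cproj (b : OrthonormalBasis κ ℝ V) (F : Finset κ) : V →ₗ[ℝ] V where
  toFun v := ∑ i ∈ F, inner ℝ (b i) v • b i
  map_add' v w := by simp only [inner_add_right, add_smul, Finset.sum_add_distrib]
  map_smul' a v := by
    simp only [inner_smul_right, mul_smul, Finset.smul_sum, RingHom.id_apply]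

theorem inner_cproj (b : OrthonormalBasis κ ℝ V) (F : Finset κ) (k : κ) (v : V) :
    inner ℝ (b k) (cproj b F v) = if k ∈ F then inner ℝ (b k) v else 0 := by
  change inner ℝ (b k) (∑ i ∈ F, inner ℝ (b i) v • b i) = _
  rw [inner_sum]
  have : ∀ i ∈ F, inner ℝ (b k) (inner ℝ (b i) v • b i) = if k = i then inner ℝ (b k) v else 0 := by
    intro i _
    rw [inner_smul_right]
    split_ifs with h
    · subst h
      rw [real_inner_self_eq_norm_sq, b.norm_eq_one]; ring
    · rw [b.orthonormal.2 h, mul_zero]
  rw [Finset.sum_congr rfl this, Finset.sum_ite_eq]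

theorem ext_inner (b : OrthonormalBasis κ ℝ V) {v w : V}
    (h : ∀ k, inner ℝ (b k) v = inner ℝ (b k) w) : v = w := by
  apply b.repr.injective
  ext k
  rw [b.repr_apply_apply, b.repr_apply_apply, h]

theorem trace_nat (f : V →ₗ[ℝ] V) (h : IsIdempotentElem f) : ∃ p : ℕ, LinearMap.trace ℝ V f = p := by
  have h1 := (LinearMap.isProj_range_iff_isIdempotentElem f).mpr h
  exact ⟨_, h1.trace⟩

theorem trace_sum (b : OrthonormalBasis κ ℝ V) (f : V →ₗ[ℝ] V) :
    LinearMap.trace ℝ V f = ∑ i, inner ℝ (b i) (f (b i)) := LinearMap.trace_eq_sum_inner f b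

/-- Traces of a block of an involution. -/
theorem block_trace (b : OrthonormalBasis κ ℝ V) (F : Finset κ) (T : V ≃ₗᵢ[ℝ] V)
    (hTT : ∀ v, T (T v) = v) (hblock : ∀ i k, i ∈ F → k ∉ F → inner ℝ (b i) (T (b k)) = 0) :
    ∃ p q : ℕ, p + q = F.card ∧ ∑ i ∈ F, inner ℝ (b i) (T (b i)) = (p : ℝ) - q := by
  have hsym : ∀ v w, inner ℝ v (T w) = inner ℝ (T v) w := by
    intro v w
    have := T.inner_map_map v (T w)
    rw [hTT] at this
    exact this.symm
  set P : Module.End ℝ V := cproj b F with hP
  set S : Module.End ℝ V := (T.toLinearEquiv : V →ₗ[ℝ] V) with hS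
  have hSS : S * S = 1 := by
    ext v; exact hTT v
  have hPP : P * P = P := by
    ext v
    apply ext_inner b
    intro k
    change inner ℝ (b k) (cproj b F (cproj b F v)) = inner ℝ (b k) (cproj b F v)
    rw [inner_cproj, inner_cproj]
    split_ifs <;> rfl
  have hPS : P * S = S * P := by
    apply b.toBasis.ext
    intro k
    apply ext_inner b
    intro i
    simp only [OrthonormalBasis.coe_toBasis]
    change inner ℝ (b i) (cproj b F (T (b k))) = inner ℝ (b i) (T (cproj b F (b k)))
    rw [inner_cproj]
    have h1 : cproj b F (b k) = if k ∈ F then b k else 0 := by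
      apply ext_inner b
      intro j
      rw [inner_cproj]
      by_cases hjk : j = k
      · subst hjk
        split_ifs <;> simp
      · rw [b.orthonormal.2 hjk]
        split_ifs <;> simp [b.orthonormal.2 hjk]
    rw [h1]
    by_cases hi : i ∈ F <;> by_cases hk : k ∈ F
    · simp [hi, hk]
    · simp [hi, hk, hblock i k hi hk]
    · simp only [hi, hk, if_true, if_false]
      rw [hsym, real_inner_comm, hblock k i hk hi]
    · simp [hi, hk]
  have idem : ∀ ε : ℝ, ε * ε = 1 → IsIdempotentElem ((1 / 2 : ℝ) • (P * (1 + ε • S))) := by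
    intro ε hε
    unfold IsIdempotentElem
    rw [smul_mul_smul_comm]
    have h1 : P * (1 + ε • S) * (P * (1 + ε • S)) = (2 : ℝ) • (P * (1 + ε • S)) := by
      have h2 : (1 + ε • S) * P = P * (1 + ε • S) := by
        rw [add_mul, mul_add, smul_mul_assoc, mul_smul_comm, hPS, one_mul, mul_one]
      calc P * (1 + ε • S) * (P * (1 + ε • S))
          = P * ((1 + ε • S) * P) * (1 + ε • S) := by simp only [mul_assoc]
        _ = (P * P) * ((1 + ε • S) * (1 + ε • S)) := by rw [h2]; simp only [mul_assoc]
        _ = P * ((2 : ℝ) • (1 + ε • S)) := by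
            rw [hPP]
            congr 1
            simp only [add_mul, mul_add, one_mul, mul_one, smul_mul_smul_comm, hε, hSS]
            module
        _ = _ := by rw [mul_smul_comm]
    rw [h1, smul_smul]
    norm_num
  obtain ⟨p, hp⟩ := trace_nat _ (idem 1 (by norm_num))
  obtain ⟨q, hq⟩ := trace_nat _ (idem (-1) (by norm_num))
  have tP : LinearMap.trace ℝ V P = F.card := by
    rw [trace_sum b]
    have : ∀ i, inner ℝ (b i) (P (b i)) = if i ∈ F then (1 : ℝ) else 0 := by
      intro i
      rw [hP, inner_cproj]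
      split_ifs
      · rw [real_inner_self_eq_norm_sq, b.norm_eq_one]; norm_num
      · rfl
    rw [Finset.sum_congr rfl (fun i _ => this i)]
    simp
  have tPS : LinearMap.trace ℝ V (P * S) = ∑ i ∈ F, inner ℝ (b i) (T (b i)) := by
    rw [trace_sum b]
    have : ∀ i, inner ℝ (b i) ((P * S) (b i)) = if i ∈ F then inner ℝ (b i) (T (b i)) else 0 := by
      intro i
      change inner ℝ (b i) (cproj b F (T (b i))) = _
      rw [inner_cproj]
    rw [Finset.sum_congr rfl (fun i _ => this i), Finset.sum_ite_mem, Finset.univ_inter]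
  have e1 : LinearMap.trace ℝ V ((1 / 2 : ℝ) • (P * (1 + (1 : ℝ) • S))) =
      (1 / 2) * (LinearMap.trace ℝ V P + LinearMap.trace ℝ V (P * S)) := by
    rw [map_smul, mul_add, mul_one, one_smul, map_add, smul_eq_mul]
  have e2 : LinearMap.trace ℝ V ((1 / 2 : ℝ) • (P * (1 + (-1 : ℝ) • S))) =
      (1 / 2) * (LinearMap.trace ℝ V P - LinearMap.trace ℝ V (P * S)) := by
    rw [map_smul, mul_add, mul_one, mul_smul_comm, map_add, map_smul, smul_eq_mul, smul_eq_mul]
    ring
  rw [hp, tP, tPS] at e1
  rw [hq, tP, tPS] at e2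
  refine ⟨p, q, ?_, ?_⟩
  · have : ((p + q : ℕ) : ℝ) = F.card := by push_cast; linarith
    exact_mod_cast this
  · linarith

theorem full_trace (b : OrthonormalBasis κ ℝ V) (T : V ≃ₗᵢ[ℝ] V) (hTT : ∀ v, T (T v) = v) :
    (Fintype.card κ : ℝ) - ∑ i, inner ℝ (b i) (T (b i)) =
      2 * (Module.finrank ℝ (LinearMap.ker ((T.toLinearEquiv : V →ₗ[ℝ] V) + LinearMap.id)) : ℝ) := by
  set S : V →ₗ[ℝ] V := (T.toLinearEquiv : V →ₗ[ℝ] V) with hS
  have hSv : ∀ v, S v = T v := fun v => rfl
  have hproj : LinearMap.IsProj (LinearMap.ker (S + LinearMap.id))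
      ((1 / 2 : ℝ) • (LinearMap.id - S)) := by
    refine ⟨fun v => ?_, fun v hv => ?_⟩
    · rw [LinearMap.mem_ker]
      simp only [LinearMap.add_apply, LinearMap.smul_apply, LinearMap.sub_apply,
        LinearMap.id_apply, map_smul, map_sub, hSv, hTT]
      module
    · rw [LinearMap.mem_ker] at hv
      simp only [LinearMap.add_apply, LinearMap.id_apply, hSv] at hv
      have : T v = -v := eq_neg_of_add_eq_zero_left hv
      simp only [LinearMap.smul_apply, LinearMap.sub_apply, LinearMap.id_apply, hSv, this]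
      module
  have h1 := hproj.trace
  rw [map_smul, map_sub, trace_sum b LinearMap.id, trace_sum b S, smul_eq_mul] at h1
  have h2 : ∑ i, inner ℝ (b i) ((LinearMap.id : V →ₗ[ℝ] V) (b i)) = (Fintype.card κ : ℝ) := by
    have : ∀ i, inner ℝ (b i) ((LinearMap.id : V →ₗ[ℝ] V) (b i)) = 1 := by
      intro i
      rw [LinearMap.id_apply, real_inner_self_eq_norm_sq, b.norm_eq_one]; norm_num
    rw [Finset.sum_congr rfl (fun i _ => this i)]
    simp
  rw [h2] at h1
  rw [← h1]
  simp only [hSv]
  ring

variable {m r : ℕ}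

/-- **Necessity, in terms of traces.** -/
theorem necessity (b : OrthonormalBasis (Idx m r) ℝ V) (lam mu : Fin m → ℝ)
    (h : ∀ j, lam j ^ 2 + mu j ^ 2 = 1) (g : Cl V) (hg : IsSpin g) (hgg : g * g = 1)
    (hx : g * nf b lam mu * g = nf b lam (fun j => -mu j)) :
    ∃ p1 q1 p2 q2 d1 d2 : ℕ,
      p1 + q1 = 2 * (Finset.univ.filter (fun j => mu j = 0)).card + r ∧
      p2 + q2 = 2 * (Finset.univ.filter (fun j => lam j = 0)).card ∧
      ((2 * m + r : ℕ) : ℤ) - ((p1 - q1) + (p2 - q2)) = 8 * d1 ∧
      ((2 * m + r : ℕ) : ℤ) - ((p1 - q1) - (p2 - q2)) = 8 * d2 := by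
  have h' : ∀ j, lam j ^ 2 + (fun j => -mu j) j ^ 2 = 1 := fun j => by simpa using h j
  obtain ⟨R, hR, Rf, Rt, Rr⟩ := nf_rot b lam mu h
  obtain ⟨R', hR', Rf', Rt', Rr'⟩ := nf_rot b lam (fun j => -mu j) h'
  obtain ⟨T, hT⟩ : ∃ T : V ≃ₗᵢ[ℝ] V, ∀ v, g * vec v = vec (T v) * g := by
    obtain ⟨L, hL, _, hLp⟩ := hg
    obtain ⟨T, hT⟩ := exists_rot L hL
    exact ⟨T, fun v => by rw [← hLp]; exact hT v⟩
  have hTT := rot_invol hgg T hT
  set X := nf b lam mu with hX
  set X' := nf b lam (fun j => -mu j) with hX'
  have hXX' : X * X' = 1 := nf_inv b lam mu h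
  have hX'X : X' * X = 1 := nf_inv' b lam mu h
  -- T R T = R'
  have hTRT : ∀ v, T (R (T v)) = R' v := by
    intro v
    apply vec_inj
    have h1 : g * X * g * vec v = vec (T (R (T v))) * (g * X * g) := by
      calc g * X * g * vec v = g * X * (g * vec v) := by rw [mul_assoc (g * X)]
        _ = g * (X * vec (T v)) * g := by rw [hT]; simp only [mul_assoc]
        _ = g * vec (R (T v)) * X * g := by rw [hR]; simp only [mul_assoc]
        _ = vec (T (R (T v))) * (g * X * g) := by rw [hT]; simp only [mul_assoc]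
    rw [hx, hR'] at h1
    have h2 := congrArg (· * X) h1
    simp only [mul_assoc, hX'X, mul_one] at h2
    exact h2.symm
  have hTR : ∀ v, T (R v) = R' (T v) := by
    intro v; have := hTRT (T v); rw [hTT] at this; exact this
  have hTR' : ∀ v, T (R' v) = R (T v) := by
    intro v; have := congrArg T (hTRT v); rw [hTT] at this; exact this.symm
  -- R and R' are inverse to each other
  have hR'R : ∀ v, R' (R v) = v := by
    intro v
    apply vec_inj
    have h1 : X' * X * vec v = vec (R' (R v)) * (X' * X) := by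
      rw [mul_assoc, hR, ← mul_assoc, hR', mul_assoc]
    rw [hX'X, one_mul, mul_one] at h1
    exact h1.symm
  have hRR' : ∀ v, R (R' v) = v := by
    intro v
    apply vec_inj
    have h1 : X * X' * vec v = vec (R (R' v)) * (X * X') := by
      rw [mul_assoc, hR', ← mul_assoc, hR, mul_assoc]
    rw [hXX', one_mul, mul_one] at h1
    exact h1.symm
  have adj : ∀ u v, inner ℝ u (R' v) = inner ℝ (R u) v := by
    intro u v
    have := R.inner_map_map u (R' v)
    rw [hRR'] at this; exact this.symm
  have adj' : ∀ u v, inner ℝ u (R v) = inner ℝ (R' u) v := by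
    intro u v
    have := R'.inner_map_map u (R v)
    rw [hR'R] at this; exact this.symm
  have hsym : ∀ v w, inner ℝ v (T w) = inner ℝ (T v) w := by
    intro v w
    have := T.inner_map_map v (T w)
    rw [hTT] at this
    exact this.symm
  -- the cosine of an index
  let c : Idx m r → ℝ := fun i => match i with
    | .inl (j, _) => lam j ^ 2 - mu j ^ 2
    | .inr _ => 1
  have hC : ∀ i, R (b i) + R' (b i) = (2 * c i) • b i := by
    intro i
    rcases i with ⟨j, s⟩ | i
    · cases s
      · rw [Rf, Rf']; simp only [c]; module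
      · rw [Rt, Rt']; simp only [c]; module
    · rw [Rr, Rr']; simp only [c]; module
  have hTC : ∀ i k, c i ≠ c k → inner ℝ (b i) (T (b k)) = 0 := by
    intro i k hik
    have h1 : inner ℝ (b i) (T (R (b k) + R' (b k))) = inner ℝ (R (b i) + R' (b i)) (T (b k)) := by
      rw [map_add, hTR, hTR', inner_add_right, inner_add_left, adj, adj']
    rw [hC, hC, map_smul, inner_smul_right, inner_smul_left] at h1
    simp only [conj_trivial] at h1
    have h2 : (c k - c i) * inner ℝ (b i) (T (b k)) = 0 := by linarith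
    rcases mul_eq_zero.mp h2 with h3 | h3
    · exact absurd (by linarith) hik
    · exact h3
  -- vanishing of the plane traces
  have hplane : ∀ j, lam j * mu j ≠ 0 →
      inner ℝ (b (.inl (j, false))) (T (b (.inl (j, false)))) +
      inner ℝ (b (.inl (j, true))) (T (b (.inl (j, true)))) = 0 := by
    intro j hj
    have h1 : inner ℝ (b (.inl (j, true))) (T (R (b (.inl (j, false))))) =
        inner ℝ (R (b (.inl (j, true)))) (T (b (.inl (j, false)))) := by
      rw [hTR, adj]
    rw [Rf, Rt, map_add, map_smul, map_smul, inner_add_right, inner_smul_right, inner_smul_right,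
      inner_sub_left, inner_smul_left, inner_smul_left] at h1
    simp only [conj_trivial] at h1
    have h2 : (2 * (lam j * mu j)) * (inner ℝ (b (.inl (j, false))) (T (b (.inl (j, false)))) +
      inner ℝ (b (.inl (j, true))) (T (b (.inl (j, true))))) = 0 := by linarith
    rcases mul_eq_zero.mp h2 with h3 | h3
    · exact absurd (by linarith) hj
    · exact h3
  -- T' = T R
  have hg2 : IsSpin (g * X) := hg.mul (nf_isSpin b lam mu h)
  have hgg2 : (g * X) * (g * X) = 1 := by
    rw [← mul_assoc, hx, hX'X]
  have hT2 : ∀ v, (g * X) * vec v = vec ((R.trans T) v) * (g * X) := by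
    intro v
    rw [mul_assoc, hR, ← mul_assoc, hT, mul_assoc]; rfl
  have hTT2 := rot_invol hgg2 _ hT2
  obtain ⟨d1, hd1⟩ := four_dvd hg hgg T hT
  obtain ⟨d2, hd2⟩ := four_dvd hg2 hgg2 _ hT2
  have ft1 := full_trace b T hTT
  have ft2 := full_trace b (R.trans T) hTT2
  rw [hd1] at ft1
  rw [hd2] at ft2
  -- index sets
  set F1 : Finset (Idx m r) := Finset.univ.filter (fun i => c i = 1) with hF1
  set F2 : Finset (Idx m r) := Finset.univ.filter (fun i => c i = -1) with hF2
  obtain ⟨p1, q1, hpq1, ht1⟩ := block_trace b F1 T hTT (by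
    intro i k hi hk
    simp only [hF1, Finset.mem_filter, Finset.mem_univ, true_and] at hi hk
    exact hTC i k (by rw [hi]; exact fun e => hk e.symm))
  obtain ⟨p2, q2, hpq2, ht2⟩ := block_trace b F2 T hTT (by
    intro i k hi hk
    simp only [hF2, Finset.mem_filter, Finset.mem_univ, true_and] at hi hk
    exact hTC i k (by rw [hi]; exact fun e => hk e.symm))
  have hc1 : ∀ j, lam j ^ 2 - mu j ^ 2 = 1 ↔ mu j = 0 := by
    intro j
    have := h j
    constructor
    · intro e; have : mu j ^ 2 = 0 := by linarith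
      exact pow_eq_zero_iff (by norm_num) |>.mp this
    · intro e; rw [e] at this ⊢; linarith
  have hc2 : ∀ j, lam j ^ 2 - mu j ^ 2 = -1 ↔ lam j = 0 := by
    intro j
    have := h j
    constructor
    · intro e; have : lam j ^ 2 = 0 := by linarith
      exact pow_eq_zero_iff (by norm_num) |>.mp this
    · intro e; rw [e] at this ⊢; linarith
  have card1 : F1.card = 2 * (Finset.univ.filter (fun j => mu j = 0)).card + r := by
    rw [hF1, Finset.card_filter, Fintype.sum_sum_type, Fintype.sum_prod_type]
    simp only [c, Fintype.sum_bool, hc1]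
    rw [Finset.card_filter, Finset.mul_sum]
    congr 1
    · exact Finset.sum_congr rfl (fun j _ => by split_ifs <;> rfl)
    · simp
  have card2 : F2.card = 2 * (Finset.univ.filter (fun j => lam j = 0)).card := by
    rw [hF2, Finset.card_filter, Fintype.sum_sum_type, Fintype.sum_prod_type]
    simp only [c, Fintype.sum_bool, hc2]
    rw [Finset.card_filter, Finset.mul_sum]
    have : ∑ x : Fin r, (if (1 : ℝ) = -1 then 1 else 0 : ℕ) = 0 := by norm_num
    rw [this, add_zero]
    exact Finset.sum_congr rfl (fun j _ => by split_ifs <;> rfl)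
  -- traces
  have tsum : ∀ (f : Idx m r → ℝ),
      (∀ j, lam j * mu j ≠ 0 → f (.inl (j, false)) + f (.inl (j, true)) = 0) →
      ∑ i, f i = ∑ i ∈ F1, f i + ∑ i ∈ F2, f i := by
    intro f hf
    rw [hF1, hF2, Finset.sum_filter, Finset.sum_filter, ← Finset.sum_add_distrib,
      Fintype.sum_sum_type, Fintype.sum_sum_type, Fintype.sum_prod_type, Fintype.sum_prod_type]
    simp only [c, Fintype.sum_bool, hc1, hc2]
    congr 1
    · refine Finset.sum_congr rfl (fun j _ => ?_)
      by_cases h1 : mu j = 0
      · have h2 : lam j ≠ 0 := by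
          intro h2; have := h j; rw [h1, h2] at this; norm_num at this
        simp [h1, h2]
      · by_cases h2 : lam j = 0
        · simp [h1, h2]
        · have := hf j (mul_ne_zero h2 h1)
          simp only [h1, h2, if_false]
          linarith
    · refine Finset.sum_congr rfl (fun j _ => ?_)
      norm_num
  have tr1 : ∑ i, inner ℝ (b i) (T (b i)) = ((p1 : ℝ) - q1) + (p2 - q2) := by
    rw [tsum _ hplane, ht1, ht2]
  have tr2 : ∑ i, inner ℝ (b i) ((R.trans T) (b i)) = ((p1 : ℝ) - q1) - (p2 - q2) := by
    rw [tsum (fun i => inner ℝ (b i) ((R.trans T) (b i)))]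
    · have e1 : ∑ i ∈ F1, inner ℝ (b i) ((R.trans T) (b i)) = (p1 : ℝ) - q1 := by
        rw [← ht1]
        refine Finset.sum_congr rfl (fun i hi => ?_)
        simp only [hF1, Finset.mem_filter, Finset.mem_univ, true_and] at hi
        have : R (b i) = b i := by
          rcases i with ⟨j, s⟩ | i
          · have hm := (hc1 j).mp hi
            cases s
            · rw [Rf, hm]; have := h j; rw [hm] at this
              have h9 : lam j ^ 2 = 1 := by linarith
              rw [h9]; module
            · rw [Rt, hm]; have := h j; rw [hm] at this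
              have h9 : lam j ^ 2 = 1 := by linarith
              rw [h9]; module
          · exact Rr i
        simp [this]
      have e2 : ∑ i ∈ F2, inner ℝ (b i) ((R.trans T) (b i)) = -((p2 : ℝ) - q2) := by
        rw [← ht2, ← Finset.sum_neg_distrib]
        refine Finset.sum_congr rfl (fun i hi => ?_)
        simp only [hF2, Finset.mem_filter, Finset.mem_univ, true_and] at hi
        have : R (b i) = -b i := by
          rcases i with ⟨j, s⟩ | i
          · have hm := (hc2 j).mp hi
            cases s
            · rw [Rf, hm]; have := h j; rw [hm] at this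
              have h9 : mu j ^ 2 = 1 := by linarith
              rw [h9]; module
            · rw [Rt, hm]; have := h j; rw [hm] at this
              have h9 : mu j ^ 2 = 1 := by linarith
              rw [h9]; module
          · exfalso; simp only [c] at hi; norm_num at hi
        simp [this]
      rw [e1, e2]; ring
    · intro j hj
      have h0 := hplane j hj
      have h1 : inner ℝ (b (.inl (j, false))) (T (b (.inl (j, true)))) =
          inner ℝ (b (.inl (j, true))) (T (b (.inl (j, false)))) := by
        rw [hsym, real_inner_comm]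
      simp only [LinearIsometryEquiv.trans_apply, Rf, Rt, map_add, map_sub, map_smul,
        inner_add_right, inner_sub_right, inner_smul_right]
      rw [h1]
      have h2 : inner ℝ (b (.inl (j, false))) (T (b (.inl (j, false)))) =
        -inner ℝ (b (.inl (j, true))) (T (b (.inl (j, true)))) := by linarith
      rw [h2]; ring
  have hcard : (Fintype.card (Idx m r) : ℝ) = ((2 * m + r : ℕ) : ℝ) := by
    simp [Idx, mul_comm]
  rw [tr1, hcard] at ft1
  rw [tr2, hcard] at ft2
  refine ⟨p1, q1, p2, q2, d1, d2, by rw [hpq1, card1], by rw [hpq2, card2], ?_, ?_⟩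
  · have : (((2 * m + r : ℕ) : ℤ) - ((p1 - q1) + (p2 - q2)) : ℝ) = ((8 * d1 : ℤ) : ℝ) := by
      push_cast at ft1 ⊢
      linarith
    exact_mod_cast this
  · have : (((2 * m + r : ℕ) : ℤ) - ((p1 - q1) - (p2 - q2)) : ℝ) = ((8 * d2 : ℤ) : ℝ) := by
      push_cast at ft2 ⊢
      linarith
    exact_mod_cast this

end

end Pool.Agent.R369.Spin
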