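import Pool.Agent.R369.Spin.Kernel

namespace Pool.Agent.R369.Spin

noncomputable section

open CliffordAlgebra

variable {V : Type*} [NormedAddCommGroup V] [InnerProductSpace ℝ V]
variable {m r : ℕ}

/-- index type: `m` planes and `r` further coordinates -/
abbrev Idx (m r : ℕ) := (Fin m × Bool) ⊕ Fin r

/-- a factor of the normal form -/
def fac (b : OrthonormalBasis (Idx m r) ℝ V) (x y : ℝ) (j : Fin m) : Cl V :=
  algebraMap ℝ _ x + y • (vec (b (.inl (j, false))) * vec (b (.inl (j, true))))

theorem orth (b : OrthonormalBasis (Idx m r) ℝ V) {i k : Idx m r} (h : i ≠ k) :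
    inner ℝ (b i) (b k) = 0 := b.orthonormal.2 h

theorem fac_commute_vec (b : OrthonormalBasis (Idx m r) ℝ V) (x y : ℝ) (j : Fin m) (w : V)
    (h1 : inner ℝ (b (.inl (j, false))) w = 0) (h2 : inner ℝ (b (.inl (j, true))) w = 0) :
    fac b x y j * vec w = vec w * fac b x y j := by
  unfold fac
  have e1 := vec_anti h1
  have e2 := vec_anti h2
  rw [add_mul, mul_add, ← Algebra.commutes, smul_mul_assoc, mul_smul_comm]
  congr 2
  rw [mul_assoc, e2, mul_neg, ← mul_assoc, e1, neg_mul, neg_neg, mul_assoc]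

theorem fac_vec_false (b : OrthonormalBasis (Idx m r) ℝ V) (x y : ℝ) (hxy : x ^ 2 + y ^ 2 = 1)
    (j : Fin m) :
    fac b x y j * vec (b (.inl (j, false))) =
      vec ((x ^ 2 - y ^ 2) • b (.inl (j, false)) + (2 * x * y) • b (.inl (j, true))) *
        fac b x y j := by
  unfold fac
  set e := vec (b (.inl (j, false))) with he
  set f := vec (b (.inl (j, true))) with hf
  have hee : e * e = -1 := vec_sq_one (b.norm_eq_one _)
  have hff : f * f = -1 := vec_sq_one (b.norm_eq_one _)
  have hfe : f * e = -(e * f) := vec_anti (orth b (by simp))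
  have h1 : (e * f) * e = f := by
    rw [mul_assoc, hfe, mul_neg, ← mul_assoc, hee]; simp
  have h2 : e * (e * f) = -f := by rw [← mul_assoc, hee]; simp
  have h3 : f * (e * f) = e := by
    rw [← mul_assoc, hfe, neg_mul, mul_assoc, hff]; simp
  rw [map_add, map_smul, map_smul, ← he, ← hf]
  simp only [Algebra.algebraMap_eq_smul_one, add_mul, mul_add, smul_mul_assoc, mul_smul_comm,
    one_mul, mul_one, h1, h2, h3, smul_smul, smul_neg, smul_add]
  have ex : x * (x ^ 2 - y ^ 2) + y * (2 * x * y) = x := by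
    have : x * (x ^ 2 - y ^ 2) + y * (2 * x * y) = x * (x ^ 2 + y ^ 2) := by ring
    rw [this, hxy, mul_one]
  have ey : x * (2 * x * y) - y * (x ^ 2 - y ^ 2) = y := by
    have : x * (2 * x * y) - y * (x ^ 2 - y ^ 2) = y * (x ^ 2 + y ^ 2) := by ring
    rw [this, hxy, mul_one]
  have : x • e + y • f = (x * (x ^ 2 - y ^ 2) + y * (2 * x * y)) • e +
      (x * (2 * x * y) - y * (x ^ 2 - y ^ 2)) • f := by rw [ex, ey]
  rw [this]
  module

theorem fac_vec_true (b : OrthonormalBasis (Idx m r) ℝ V) (x y : ℝ) (hxy : x ^ 2 + y ^ 2 = 1)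
    (j : Fin m) :
    fac b x y j * vec (b (.inl (j, true))) =
      vec ((x ^ 2 - y ^ 2) • b (.inl (j, true)) - (2 * x * y) • b (.inl (j, false))) *
        fac b x y j := by
  unfold fac
  set e := vec (b (.inl (j, false))) with he
  set f := vec (b (.inl (j, true))) with hf
  have hee : e * e = -1 := vec_sq_one (b.norm_eq_one _)
  have hff : f * f = -1 := vec_sq_one (b.norm_eq_one _)
  have hfe : f * e = -(e * f) := vec_anti (orth b (by simp))
  have h1 : (e * f) * f = -e := by
    rw [mul_assoc, hff]; simp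
  have h2 : e * (e * f) = -f := by rw [← mul_assoc, hee]; simp
  have h3 : f * (e * f) = e := by
    rw [← mul_assoc, hfe, neg_mul, mul_assoc, hff]; simp
  rw [map_sub, map_smul, map_smul, ← he, ← hf]
  simp only [Algebra.algebraMap_eq_smul_one, add_mul, mul_add, sub_mul, smul_mul_assoc,
    mul_smul_comm, one_mul, mul_one, h1, h2, h3, smul_smul, smul_neg, smul_add, smul_sub]
  have ex : x * (x ^ 2 - y ^ 2) + y * (2 * x * y) = x := by
    have : x * (x ^ 2 - y ^ 2) + y * (2 * x * y) = x * (x ^ 2 + y ^ 2) := by ring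
    rw [this, hxy, mul_one]
  have ey : x * (2 * x * y) - y * (x ^ 2 - y ^ 2) = y := by
    have : x * (2 * x * y) - y * (x ^ 2 - y ^ 2) = y * (x ^ 2 + y ^ 2) := by ring
    rw [this, hxy, mul_one]
  have : x • f + -(y • e) = (x * (x ^ 2 - y ^ 2) + y * (2 * x * y)) • f -
      (x * (2 * x * y) - y * (x ^ 2 - y ^ 2)) • e := by rw [ex, ey]; module
  rw [this]
  module

theorem fac_isSpin (b : OrthonormalBasis (Idx m r) ℝ V) (x y : ℝ) (hxy : x ^ 2 + y ^ 2 = 1)
    (j : Fin m) : IsSpin (fac b x y j) := by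
  refine ⟨[b (.inl (j, false)), (-x) • b (.inl (j, false)) + y • b (.inl (j, true))], ?_, ?_, ?_⟩
  · intro v hv
    rcases List.mem_cons.mp hv with rfl | hv
    · exact b.norm_eq_one _
    · rw [List.mem_singleton] at hv
      subst hv
      have h0 : inner ℝ ((-x) • b (.inl (j, false))) (y • b (.inl (j, true))) = 0 := by
        rw [inner_smul_left, inner_smul_right, orth b (by simp)]; simp
      have h1 := norm_add_sq_real ((-x) • b (.inl (j, false))) (y • b (.inl (j, true)))
      rw [h0, norm_smul, norm_smul, b.norm_eq_one, b.norm_eq_one] at h1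
      simp only [mul_one, mul_zero, add_zero, Real.norm_eq_abs, sq_abs, neg_sq] at h1
      rw [hxy] at h1
      have h2 := norm_nonneg ((-x) • b (.inl (j, false)) + y • b (.inl (j, true)))
      nlinarith
  · exact ⟨1, rfl⟩
  · simp only [List.map_cons, List.map_nil, List.prod_cons, List.prod_nil, mul_one]
    rw [map_add, map_smul, map_smul, mul_add, mul_smul_comm, mul_smul_comm,
      vec_sq_one (b.norm_eq_one _)]
    unfold fac
    rw [Algebra.algebraMap_eq_smul_one]
    simp

/-- product of factors over a list of planes -/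
def facL (b : OrthonormalBasis (Idx m r) ℝ V) (lam mu : Fin m → ℝ) (l : List (Fin m)) : Cl V :=
  (l.map (fun j => fac b (lam j) (mu j) j)).prod

@[simp] theorem facL_nil (b : OrthonormalBasis (Idx m r) ℝ V) (lam mu : Fin m → ℝ) :
    facL b lam mu [] = 1 := rfl
@[simp] theorem facL_cons (b : OrthonormalBasis (Idx m r) ℝ V) (lam mu : Fin m → ℝ) (j : Fin m)
    (l : List (Fin m)) : facL b lam mu (j :: l) = fac b (lam j) (mu j) j * facL b lam mu l := by
  simp [facL]

theorem facL_isSpin (b : OrthonormalBasis (Idx m r) ℝ V) (lam mu : Fin m → ℝ)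
    (h : ∀ j, lam j ^ 2 + mu j ^ 2 = 1) (l : List (Fin m)) : IsSpin (facL b lam mu l) := by
  induction l with
  | nil => exact IsSpin.one
  | cons j l ih => rw [facL_cons]; exact (fac_isSpin b _ _ (h j) j).mul ih

theorem facL_commute_vec (b : OrthonormalBasis (Idx m r) ℝ V) (lam mu : Fin m → ℝ)
    (l : List (Fin m)) (w : V)
    (h : ∀ j ∈ l, inner ℝ (b (.inl (j, false))) w = 0 ∧ inner ℝ (b (.inl (j, true))) w = 0) :
    facL b lam mu l * vec w = vec w * facL b lam mu l := by
  induction l with
  | nil => simp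
  | cons j l ih =>
    rw [facL_cons, mul_assoc, ih (fun k hk => h k (List.mem_cons_of_mem _ hk)), ← mul_assoc,
      fac_commute_vec b _ _ j w (h j List.mem_cons_self).1 (h j List.mem_cons_self).2, mul_assoc]

theorem facL_commute_fac (b : OrthonormalBasis (Idx m r) ℝ V) (lam mu : Fin m → ℝ)
    (l : List (Fin m)) (x y : ℝ) (k : Fin m) (hk : k ∉ l) :
    facL b lam mu l * fac b x y k = fac b x y k * facL b lam mu l := by
  have h1 : ∀ s, facL b lam mu l * vec (b (.inl (k, s))) = vec (b (.inl (k, s))) * facL b lam mu l := by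
    intro s
    refine facL_commute_vec b lam mu l _ (fun j hj => ?_)
    have hjk : j ≠ k := fun e => hk (e ▸ hj)
    exact ⟨orth b (by simp [hjk]), orth b (by simp [hjk])⟩
  unfold fac
  rw [mul_add, add_mul, Algebra.commutes, mul_smul_comm, smul_mul_assoc]
  congr 2
  rw [← mul_assoc, h1, mul_assoc, h1, mul_assoc]

theorem fac_inv (b : OrthonormalBasis (Idx m r) ℝ V) (x y : ℝ) (hxy : x ^ 2 + y ^ 2 = 1)
    (j : Fin m) : fac b x y j * fac b x (-y) j = 1 := by
  unfold fac
  set e := vec (b (.inl (j, false))) with he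
  set f := vec (b (.inl (j, true))) with hf
  have hee : e * e = -1 := vec_sq_one (b.norm_eq_one _)
  have hff : f * f = -1 := vec_sq_one (b.norm_eq_one _)
  have hfe : f * e = -(e * f) := vec_anti (orth b (by simp))
  have h1 : (e * f) * (e * f) = -1 := by
    calc (e * f) * (e * f) = e * (f * e) * f := by simp only [mul_assoc]
      _ = -(e * e) * (f * f) := by rw [hfe]; simp only [mul_neg, neg_mul, mul_assoc]
      _ = -1 := by rw [hee, hff]; simp
  simp only [Algebra.algebraMap_eq_smul_one, add_mul, mul_add, smul_mul_assoc, mul_smul_comm,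
    one_mul, mul_one, h1, smul_smul, smul_neg, smul_add]
  have : (1 : Cl V) = (x ^ 2 + y ^ 2) • (1 : Cl V) := by rw [hxy, one_smul]
  conv_rhs => rw [this]
  module

theorem facL_inv (b : OrthonormalBasis (Idx m r) ℝ V) (lam mu : Fin m → ℝ)
    (h : ∀ j, lam j ^ 2 + mu j ^ 2 = 1) (l : List (Fin m)) (hl : l.Nodup) :
    facL b lam mu l * facL b lam (fun j => -mu j) l = 1 := by
  induction l with
  | nil => simp
  | cons j l ih =>
    rw [List.nodup_cons] at hl
    rw [facL_cons, facL_cons]
    calc fac b (lam j) (mu j) j * facL b lam mu l *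
          (fac b (lam j) (-mu j) j * facL b lam (fun j => -mu j) l)
        = fac b (lam j) (mu j) j * (facL b lam mu l * fac b (lam j) (-mu j) j) *
            facL b lam (fun j => -mu j) l := by simp only [mul_assoc]
      _ = fac b (lam j) (mu j) j * (fac b (lam j) (-mu j) j * facL b lam mu l) *
            facL b lam (fun j => -mu j) l := by rw [facL_commute_fac b lam mu l _ _ j hl.1]
      _ = (fac b (lam j) (mu j) j * fac b (lam j) (-mu j) j) *
            (facL b lam mu l * facL b lam (fun j => -mu j) l) := by simp only [mul_assoc]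
      _ = 1 := by rw [fac_inv b _ _ (h j), ih hl.2, one_mul]

theorem facL_vec_in (b : OrthonormalBasis (Idx m r) ℝ V) (lam mu : Fin m → ℝ)
    (j : Fin m) (v w : V)
    (hv : ∀ k, k ≠ j → ∀ s, inner ℝ (b (.inl (k, s))) v = 0)
    (hw : ∀ k, k ≠ j → ∀ s, inner ℝ (b (.inl (k, s))) w = 0)
    (hj : fac b (lam j) (mu j) j * vec v = vec w * fac b (lam j) (mu j) j)
    (l : List (Fin m)) (hl : l.Nodup) (hm : j ∈ l) :
    facL b lam mu l * vec v = vec w * facL b lam mu l := by
  induction l with
  | nil => simp at hm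
  | cons k l ih =>
    rw [List.nodup_cons] at hl
    rw [facL_cons]
    by_cases hkj : k = j
    · subst hkj
      rw [mul_assoc, facL_commute_vec b lam mu l v
        (fun i hi => ⟨hv i (fun e => hl.1 (e ▸ hi)) _, hv i (fun e => hl.1 (e ▸ hi)) _⟩),
        ← mul_assoc, hj, mul_assoc]
    · have hm' : j ∈ l := by
        rcases List.mem_cons.mp hm with h | h
        · exact absurd h.symm hkj
        · exact h
      rw [mul_assoc, ih hl.2 hm', ← mul_assoc,
        fac_commute_vec b _ _ k w (hw k hkj _) (hw k hkj _), mul_assoc]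

/-- the normal form -/
def nf (b : OrthonormalBasis (Idx m r) ℝ V) (lam mu : Fin m → ℝ) : Cl V :=
  facL b lam mu (List.finRange m)

theorem nf_vec_false (b : OrthonormalBasis (Idx m r) ℝ V) (lam mu : Fin m → ℝ)
    (h : ∀ j, lam j ^ 2 + mu j ^ 2 = 1) (j : Fin m) :
    nf b lam mu * vec (b (.inl (j, false))) =
      vec ((lam j ^ 2 - mu j ^ 2) • b (.inl (j, false)) +
        (2 * lam j * mu j) • b (.inl (j, true))) * nf b lam mu := by
  refine facL_vec_in b lam mu j _ _ ?_ ?_ (fac_vec_false b _ _ (h j) j) _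
    (List.nodup_finRange m) (List.mem_finRange j)
  · intro k hk s; exact orth b (by simp [hk])
  · intro k hk s
    rw [inner_add_right, inner_smul_right, inner_smul_right, orth b (by simp [hk]),
      orth b (by simp [hk])]
    simp

theorem nf_vec_true (b : OrthonormalBasis (Idx m r) ℝ V) (lam mu : Fin m → ℝ)
    (h : ∀ j, lam j ^ 2 + mu j ^ 2 = 1) (j : Fin m) :
    nf b lam mu * vec (b (.inl (j, true))) =
      vec ((lam j ^ 2 - mu j ^ 2) • b (.inl (j, true)) -
        (2 * lam j * mu j) • b (.inl (j, false))) * nf b lam mu := by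
  refine facL_vec_in b lam mu j _ _ ?_ ?_ (fac_vec_true b _ _ (h j) j) _
    (List.nodup_finRange m) (List.mem_finRange j)
  · intro k hk s; exact orth b (by simp [hk])
  · intro k hk s
    rw [inner_sub_right, inner_smul_right, inner_smul_right, orth b (by simp [hk]),
      orth b (by simp [hk])]
    simp

theorem nf_vec_inr (b : OrthonormalBasis (Idx m r) ℝ V) (lam mu : Fin m → ℝ) (i : Fin r) :
    nf b lam mu * vec (b (.inr i)) = vec (b (.inr i)) * nf b lam mu :=
  facL_commute_vec b lam mu _ _ (fun j _ => ⟨orth b (by simp), orth b (by simp)⟩)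

theorem nf_isSpin (b : OrthonormalBasis (Idx m r) ℝ V) (lam mu : Fin m → ℝ)
    (h : ∀ j, lam j ^ 2 + mu j ^ 2 = 1) : IsSpin (nf b lam mu) := facL_isSpin b lam mu h _

theorem nf_inv (b : OrthonormalBasis (Idx m r) ℝ V) (lam mu : Fin m → ℝ)
    (h : ∀ j, lam j ^ 2 + mu j ^ 2 = 1) : nf b lam mu * nf b lam (fun j => -mu j) = 1 :=
  facL_inv b lam mu h _ (List.nodup_finRange m)

theorem nf_inv' (b : OrthonormalBasis (Idx m r) ℝ V) (lam mu : Fin m → ℝ)
    (h : ∀ j, lam j ^ 2 + mu j ^ 2 = 1) : nf b lam (fun j => -mu j) * nf b lam mu = 1 := by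
  have := nf_inv b lam (fun j => -mu j) (fun j => by simpa using h j)
  simpa using this

/-- the rotation of the normal form -/
theorem nf_rot (b : OrthonormalBasis (Idx m r) ℝ V) (lam mu : Fin m → ℝ)
    (h : ∀ j, lam j ^ 2 + mu j ^ 2 = 1) :
    ∃ R : V ≃ₗᵢ[ℝ] V, (∀ v, nf b lam mu * vec v = vec (R v) * nf b lam mu) ∧
      (∀ j, R (b (.inl (j, false))) = (lam j ^ 2 - mu j ^ 2) • b (.inl (j, false)) +
        (2 * lam j * mu j) • b (.inl (j, true))) ∧
      (∀ j, R (b (.inl (j, true))) = (lam j ^ 2 - mu j ^ 2) • b (.inl (j, true)) -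
        (2 * lam j * mu j) • b (.inl (j, false))) ∧
      (∀ i, R (b (.inr i)) = b (.inr i)) := by
  obtain ⟨L, hL, _, hLp⟩ := nf_isSpin b lam mu h
  obtain ⟨R, hR⟩ := exists_rot L hL
  have hR' : ∀ v, nf b lam mu * vec v = vec (R v) * nf b lam mu := by
    intro v; rw [← hLp]; exact hR v
  have cancel : ∀ v w, nf b lam mu * vec v = vec w * nf b lam mu → R v = w := by
    intro v w hvw
    apply vec_inj
    rw [hR'] at hvw
    have h1 := congrArg (· * nf b lam (fun j => -mu j)) hvw
    simp only [mul_assoc, nf_inv b lam mu h, mul_one] at h1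
    exact h1
  exact ⟨R, hR', fun j => cancel _ _ (nf_vec_false b lam mu h j),
    fun j => cancel _ _ (nf_vec_true b lam mu h j), fun i => cancel _ _ (nf_vec_inr b lam mu i)⟩

end

end Pool.Agent.R369.Spin
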