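import Pool.Agent.R369.Spin.Nec

namespace Pool.Agent.R369.Spin

noncomputable section

open CliffordAlgebra

variable {V : Type*} [NormedAddCommGroup V] [InnerProductSpace ℝ V]
variable {m r : ℕ}

/-- product of the basis vectors of a set of indices -/
def eI (b : OrthonormalBasis (Idx m r) ℝ V) (I : Finset (Idx m r)) : Cl V :=
  prodL (I.toList.map b)

theorem eI_unit (b : OrthonormalBasis (Idx m r) ℝ V) (I : Finset (Idx m r)) :
    ∀ v ∈ I.toList.map b, ‖v‖ = 1 := by
  intro v hv
  obtain ⟨k, _, rfl⟩ := List.mem_map.mp hv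
  exact b.norm_eq_one k

theorem eI_pair (b : OrthonormalBasis (Idx m r) ℝ V) (I : Finset (Idx m r)) :
    (I.toList.map b).Pairwise (fun a c => inner ℝ a c = 0) := by
  refine List.Pairwise.map _ ?_ I.nodup_toList
  intro i k hik
  exact orth b hik

theorem eI_isSpin (b : OrthonormalBasis (Idx m r) ℝ V) (I : Finset (Idx m r)) (h : 4 ∣ I.card) :
    IsSpin (eI b I) := by
  refine ⟨I.toList.map b, eI_unit b I, ?_, rfl⟩
  rw [List.length_map, Finset.length_toList]
  obtain ⟨q, hq⟩ := h
  exact ⟨2 * q, by omega⟩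

theorem eI_sq (b : OrthonormalBasis (Idx m r) ℝ V) (I : Finset (Idx m r)) (h : 4 ∣ I.card) :
    eI b I * eI b I = 1 := by
  unfold eI
  rw [prodL_sq _ (eI_unit b I) (eI_pair b I), List.length_map, Finset.length_toList]
  obtain ⟨q, hq⟩ := h
  have : I.card * (I.card + 1) / 2 = 2 * (q * (4 * q + 1)) := by
    rw [hq, show 4 * q * (4 * q + 1) = (2 * (q * (4 * q + 1))) * 2 by ring]
    exact Nat.mul_div_cancel _ (by norm_num)
  rw [this, pow_mul]
  simp

/-- the sign attached to an index -/
def sg (I : Finset (Idx m r)) (k : Idx m r) : ℝ := if k ∈ I then -1 else 1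

theorem eI_vec (b : OrthonormalBasis (Idx m r) ℝ V) (I : Finset (Idx m r)) (h : 4 ∣ I.card)
    (k : Idx m r) : eI b I * vec (b k) = sg I k • (vec (b k) * eI b I) := by
  have hlen : (I.toList.map b).length = I.card := by rw [List.length_map, Finset.length_toList]
  have hpow : (-1 : Cl V) ^ (I.toList.map b).length = 1 := by
    rw [hlen]; obtain ⟨q, hq⟩ := h; rw [hq, pow_mul]; norm_num
  unfold sg
  split_ifs with hk
  · have h1 := prodL_mul_mem _ (eI_unit b I) (eI_pair b I) (b k)
      (List.mem_map.mpr ⟨k, Finset.mem_toList.mpr hk, rfl⟩)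
    rw [hpow, one_mul] at h1
    rw [neg_smul, one_smul]
    exact h1
  · have h1 := prodL_mul_orth (I.toList.map b) (b k) (by
      intro v hv
      obtain ⟨i, hi, rfl⟩ := List.mem_map.mp hv
      exact orth b (fun e => hk (e ▸ Finset.mem_toList.mp hi)))
    rw [hpow, one_mul] at h1
    rw [one_smul]
    exact h1

theorem eI_fac (b : OrthonormalBasis (Idx m r) ℝ V) (I : Finset (Idx m r)) (h : 4 ∣ I.card)
    (x y : ℝ) (j : Fin m) : eI b I * fac b x y j =
      fac b x (sg I (.inl (j, false)) * sg I (.inl (j, true)) * y) j * eI b I := by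
  unfold fac
  rw [mul_add, add_mul, Algebra.commutes, mul_smul_comm, smul_mul_assoc, ← mul_assoc, eI_vec b I h,
    smul_mul_assoc, mul_assoc, eI_vec b I h, mul_smul_comm, smul_smul, smul_smul, ← mul_assoc]
  congr 2
  ring

theorem eI_facL (b : OrthonormalBasis (Idx m r) ℝ V) (I : Finset (Idx m r)) (h : 4 ∣ I.card)
    (lam mu : Fin m → ℝ) (l : List (Fin m)) : eI b I * facL b lam mu l =
      facL b lam (fun j => sg I (.inl (j, false)) * sg I (.inl (j, true)) * mu j) l * eI b I := by
  induction l with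
  | nil => simp
  | cons j l ih =>
    rw [facL_cons, facL_cons]
    calc eI b I * (fac b (lam j) (mu j) j * facL b lam mu l)
        = (eI b I * fac b (lam j) (mu j) j) * facL b lam mu l := by rw [mul_assoc]
      _ = fac b (lam j) (sg I (.inl (j, false)) * sg I (.inl (j, true)) * mu j) j *
            (eI b I * facL b lam mu l) := by rw [eI_fac b I h]; simp only [_root_.mul_assoc (fac b _ _ _)]
      _ = _ := by rw [ih]; simp only [_root_.mul_assoc (fac b _ _ _)]

theorem facL_scale (b : OrthonormalBasis (Idx m r) ℝ V) (lam mu mu' : Fin m → ℝ) (η : Fin m → ℝ)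
    (hη : ∀ j, fac b (lam j) (mu j) j = η j • fac b (lam j) (mu' j) j) (l : List (Fin m)) :
    facL b lam mu l = (l.map η).prod • facL b lam mu' l := by
  induction l with
  | nil => simp
  | cons j l ih =>
    rw [facL_cons, facL_cons, List.map_cons, List.prod_cons, hη, ih, smul_mul_assoc,
      mul_smul_comm, smul_smul]

/-- **Sufficiency.** -/
theorem sufficiency (b : OrthonormalBasis (Idx m r) ℝ V) (lam mu : Fin m → ℝ)
    (h : ∀ j, lam j ^ 2 + mu j ^ 2 = 1) (A : Finset (Fin m)) (hA : ∀ j ∈ A, lam j = 0)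
    (hAe : Even A.card) (t : ℕ)
    (ht : t ≤ 2 * (Finset.univ.filter (fun j => mu j = 0)).card + r)
    (h4 : 4 ∣ (Finset.univ.filter (fun j => mu j ≠ 0)).card + A.card + t) :
    ∃ g : Cl V, IsSpin g ∧ g * g = 1 ∧ g * nf b lam mu * g = nf b lam (fun j => -mu j) := by
  classical
  have hAmu : ∀ j ∈ A, mu j ≠ 0 := by
    intro j hj e
    have := h j
    rw [hA j hj, e] at this
    norm_num at this
  set F1 : Finset (Idx m r) := Finset.univ.filter (fun i => match i with
    | .inl (j, _) => mu j = 0
    | .inr _ => True) with hF1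
  have card1 : F1.card = 2 * (Finset.univ.filter (fun j => mu j = 0)).card + r := by
    rw [hF1, Finset.card_filter, Fintype.sum_sum_type, Fintype.sum_prod_type]
    simp only [Fintype.sum_bool]
    rw [Finset.card_filter, Finset.mul_sum]
    congr 1
    · exact Finset.sum_congr rfl (fun j _ => by split_ifs <;> rfl)
    · simp
  obtain ⟨Ft, hFt, hFtc⟩ := Finset.exists_subset_card_eq (s := F1) (n := t) (by rw [card1]; exact ht)
  let f0 : Fin m ↪ Idx m r := ⟨fun j => .inl (j, false), fun a c hac => by simpa using hac⟩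
  let f1 : Fin m ↪ Idx m r := ⟨fun j => .inl (j, true), fun a c hac => by simpa using hac⟩
  set I0 := (Finset.univ.filter (fun j => mu j ≠ 0)).map f0 with hI0
  set I1 := A.map f1 with hI1
  have mem0 : ∀ i, i ∈ I0 ↔ ∃ j, mu j ≠ 0 ∧ i = .inl (j, false) := by
    intro i
    simp only [hI0, Finset.mem_map, Finset.mem_filter, Finset.mem_univ, true_and, f0,
      Function.Embedding.coeFn_mk]
    exact ⟨fun ⟨j, h1, h2⟩ => ⟨j, h1, h2.symm⟩, fun ⟨j, h1, h2⟩ => ⟨j, h1, h2.symm⟩⟩
  have mem1 : ∀ i, i ∈ I1 ↔ ∃ j ∈ A, i = .inl (j, true) := by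
    intro i
    simp only [hI1, Finset.mem_map, f1, Function.Embedding.coeFn_mk]
    exact ⟨fun ⟨j, h1, h2⟩ => ⟨j, h1, h2.symm⟩, fun ⟨j, h1, h2⟩ => ⟨j, h1, h2.symm⟩⟩
  have memF : ∀ j s, (.inl (j, s) : Idx m r) ∈ Ft → mu j = 0 := by
    intro j s hj
    have := hFt hj
    simpa [hF1] using this
  have d01 : Disjoint I0 I1 := by
    rw [Finset.disjoint_left]
    intro i h0 h1
    obtain ⟨j, _, rfl⟩ := (mem0 i).mp h0
    obtain ⟨k, _, hk⟩ := (mem1 _).mp h1
    simp at hk
  have d2 : Disjoint (I0 ∪ I1) Ft := by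
    rw [Finset.disjoint_left]
    intro i hi hf
    rcases Finset.mem_union.mp hi with h0 | h1
    · obtain ⟨j, hj, rfl⟩ := (mem0 i).mp h0
      exact hj (memF j _ hf)
    · obtain ⟨j, hj, rfl⟩ := (mem1 i).mp h1
      exact hAmu j hj (memF j _ hf)
  set I := (I0 ∪ I1) ∪ Ft with hI
  have hIc : I.card = (Finset.univ.filter (fun j => mu j ≠ 0)).card + A.card + t := by
    rw [hI, Finset.card_union_of_disjoint d2, Finset.card_union_of_disjoint d01, hFtc, hI0, hI1,
      Finset.card_map, Finset.card_map]
  rw [← hIc] at h4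
  refine ⟨eI b I, eI_isSpin b I h4, eI_sq b I h4, ?_⟩
  unfold nf
  rw [eI_facL b I h4, mul_assoc, eI_sq b I h4, mul_one]
  set η : Fin m → ℝ := fun j => if j ∈ A then -1 else 1 with hη
  rw [facL_scale b lam _ (fun j => -mu j) η]
  · have : (List.map η (List.finRange m)).prod = 1 := by
      rw [← List.ofFn_eq_map, List.prod_ofFn, hη, Finset.prod_ite]
      simp [hAe.neg_one_pow]
    rw [this, one_smul]
  · intro j
    by_cases hm : mu j = 0
    · have hjA : j ∉ A := fun hj => hAmu j hj hm
      simp only [hη, hjA, if_false, hm, mul_zero, neg_zero, one_smul]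
    · have s0 : sg I (.inl (j, false)) = -1 := by
        unfold sg
        rw [if_pos]
        exact Finset.mem_union_left _ (Finset.mem_union_left _ ((mem0 _).mpr ⟨j, hm, rfl⟩))
      by_cases hjA : j ∈ A
      · have s1 : sg I (.inl (j, true)) = -1 := by
          unfold sg
          rw [if_pos]
          exact Finset.mem_union_left _ (Finset.mem_union_right _ ((mem1 _).mpr ⟨j, hjA, rfl⟩))
        simp only [hη, hjA, if_true, s0, s1, hA j hjA]
        unfold fac
        rw [map_zero, zero_add, zero_add, smul_smul]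
        congr 1
        ring
      · have s1 : sg I (.inl (j, true)) = 1 := by
          unfold sg
          rw [if_neg]
          intro hc
          rcases Finset.mem_union.mp hc with h1 | h1
          · rcases Finset.mem_union.mp h1 with h2 | h2
            · obtain ⟨k, _, hk⟩ := (mem0 _).mp h2
              simp at hk
            · obtain ⟨k, hk1, hk⟩ := (mem1 _).mp h2
              simp only [Sum.inl.injEq, Prod.mk.injEq, and_true] at hk
              exact hjA (hk ▸ hk1)
          · exact hm (memF j _ h1)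
        simp only [hη, hjA, if_false, s0, s1, one_smul]
        congr 1
        ring

end

end Pool.Agent.R369.Spin
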